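import Pool.Agent.K4H53.AP.Stm

/-!
# Abelian image: the mean value of a character over the classes of the Frobenius automorphisms
-/

set_option autoImplicit false

open scoped Classical

namespace Pool.Agent.K4H53.AP

theorem s_avg : S_AVG := by
  intro n _ χ p hp
  have hn0 : n ≠ 0 := NeZero.ne n
  have hd : ordCompl[p] n ∣ n := Nat.ordCompl_dvd n p
  have hcop : Nat.Coprime p (ordCompl[p] n) := Nat.coprime_ordCompl hp hn0
  have hfr : ∀ u : (ZMod n)ˣ, fr n p u ↔ ZMod.unitsMap hd u = ZMod.unitOfCoprime p hcop := by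
    intro u
    rw [Units.ext_iff, ZMod.unitsMap_val, ZMod.coe_unitOfCoprime, fr, ZMod.natCast_val]
  have hpos : 0 < (Finset.univ.filter (fr n p)).card := by
    obtain ⟨u, hu⟩ := ZMod.unitsMap_surjective hd (ZMod.unitOfCoprime p hcop)
    exact Finset.card_pos.2 ⟨u, Finset.mem_filter.2 ⟨Finset.mem_univ _, (hfr u).2 hu⟩⟩
  refine ⟨hpos, ?_⟩
  by_cases hc : χ.conductor ∣ ordCompl[p] n
  · -- the character is defined modulo the prime-to-`p` part
    have hval : ∀ u ∈ Finset.univ.filter (fr n p), χ (u : ZMod n) =
        χ.primitiveCharacter ((p : ℕ) : ZMod χ.conductor) := by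
      intro u hu
      have hu' := (hfr u).1 (Finset.mem_filter.1 hu).2
      have h1 := DirichletCharacter.changeLevel_eq_cast_of_dvd χ.primitiveCharacter
        χ.conductor_dvd_level u
      rw [DirichletCharacter.changeLevel_primitiveCharacter] at h1
      rw [h1]
      congr 1
      have h2 : ((ZMod.unitsMap χ.conductor_dvd_level u : (ZMod χ.conductor)ˣ) : ZMod χ.conductor) =
          ZMod.cast (u : ZMod n) := ZMod.unitsMap_val _ _
      have h3 : ZMod.unitsMap χ.conductor_dvd_level u = ZMod.unitsMap hc (ZMod.unitsMap hd u) := by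
        have := ZMod.unitsMap_comp hc hd
        rw [← this]
        rfl
      rw [← h2, h3, hu', ZMod.unitsMap_val, ZMod.coe_unitOfCoprime, ZMod.cast_natCast hc]
    rw [Finset.sum_congr rfl hval, Finset.sum_const, nsmul_eq_mul]
  · -- the sum over a coset of a non-trivial character
    have hpc : p ∣ χ.conductor := by
      by_contra hpc
      exact hc (Nat.Coprime.dvd_of_dvd_mul_left
        (Nat.Coprime.pow_right _ ((Nat.Prime.coprime_iff_not_dvd hp).2 hpc).symm)
        (by rw [Nat.ordProj_mul_ordCompl_eq_self]; exact χ.conductor_dvd_level))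
    have hprim : χ.primitiveCharacter ((p : ℕ) : ZMod χ.conductor) = 0 := by
      apply MulChar.map_nonunit
      rw [ZMod.isUnit_iff_coprime]
      intro h
      have h1 := Nat.Coprime.eq_one_of_dvd h hpc
      exact hp.one_lt.ne' h1
    rw [hprim, mul_zero]
    have hnt : ¬ (ZMod.unitsMap hd).ker ≤ χ.toUnitHom.ker := by
      intro h
      apply hc
      exact DirichletCharacter.conductor_dvd_of_mem_conductorSet χ
        ((DirichletCharacter.factorsThrough_iff_ker_unitsMap hd).2 h)
    obtain ⟨k, hk, hk'⟩ := SetLike.not_le_iff_exists.1 hnt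
    have hk1 : χ (k : ZMod n) ≠ 1 := by
      intro h
      apply hk'
      rw [MonoidHom.mem_ker, Units.ext_iff, MulChar.coe_toUnitHom, h, Units.val_one]
    rw [MonoidHom.mem_ker] at hk
    have hsum : ∑ u ∈ Finset.univ.filter (fr n p), χ (u : ZMod n) =
        ∑ u ∈ Finset.univ.filter (fr n p), χ (k : ZMod n) * χ (u : ZMod n) := by
      refine Finset.sum_equiv (Equiv.mulLeft k⁻¹) ?_ ?_
      · intro u
        simp only [Finset.mem_filter, Finset.mem_univ, true_and, Equiv.coe_mulLeft]
        rw [hfr, hfr, map_mul, map_inv, hk, inv_one, one_mul]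
      · intro u _
        rw [Equiv.coe_mulLeft, ← map_mul]
        congr 1
        simp
    rw [← Finset.mul_sum] at hsum
    have h2 : (1 - χ (k : ZMod n)) * ∑ u ∈ Finset.univ.filter (fr n p), χ (u : ZMod n) = 0 := by
      linear_combination hsum
    rcases mul_eq_zero.1 h2 with h3 | h3
    · exact absurd (sub_eq_zero.1 h3).symm hk1
    · exact h3

end Pool.Agent.K4H53.AP
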