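import Pool.Agent.K4H53.AP.Stm
import Pool.Agent.R431.B.Dg

/-!
# Simultaneous diagonalisation; the characters of a representation with abelian image

(The lemmas on eigenvectors are those of `Pool.Agent.K4H15.BT.Main`.)
-/

set_option autoImplicit false
set_option linter.unusedSectionVars false

namespace Pool.Agent.K4H53.AP

open NumberField IsDedekindDomain

open Pool.Agent.R431.B (sum_mc eigSet span_eigSet)

section

variable {G : Type} [CommGroup G] [Finite G] {κ : Type} [Fintype κ] [DecidableEq κ]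

lemma exists_basis (T : G →* Module.End ℂ (κ → ℂ)) :
    ∃ (b : Module.Basis κ ℂ (κ → ℂ)) (χ : κ → MulChar G ℂ),
      ∀ (u : G) i, T u (b i) = χ i u • b i := by
  classical
  let b₀ := Module.Basis.ofSpan (span_eigSet T)
  have : Fintype ((linearIndepOn_empty ℂ id).extend (Set.empty_subset (eigSet T))) :=
    FiniteDimensional.fintypeBasisIndex b₀
  have hc : Fintype.card ((linearIndepOn_empty ℂ id).extend (Set.empty_subset (eigSet T))) =
      Fintype.card κ := by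
    rw [← Module.finrank_eq_card_basis b₀]
    simp
  let b := b₀.reindex (Fintype.equivOfCardEq hc)
  have hb : ∀ i, b i ∈ eigSet T := by
    intro i
    rw [Module.Basis.reindex_apply]
    exact Module.Basis.ofSpan_subset (span_eigSet T) ⟨_, rfl⟩
  choose χ hχ using hb
  exact ⟨b, χ, fun u i => hχ i u⟩

end


section mat

variable {κ : Type} [Fintype κ] [DecidableEq κ]

/-- the matrix -/
def cM (A : GL κ ℂ) : Matrix κ κ ℂ := (A : Matrix κ κ ℂ)

lemma cM_one : cM (1 : GL κ ℂ) = 1 := rfl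

lemma cM_mul (A B : GL κ ℂ) : cM (A * B) = cM A * cM B := rfl

/-- the eigenvector `b` of the matrix -/
def Eig (b : κ → ℂ) (A : Matrix κ κ ℂ) (l : ℂ) : Prop := A.mulVec b = l • b

lemma Eig.add {b : κ → ℂ} {A B : Matrix κ κ ℂ} {l m : ℂ} (h : Eig b A l)
    (h' : Eig b B m) : Eig b (A + B) (l + m) := by
  unfold Eig at *
  rw [Matrix.add_mulVec, h, h', add_smul]

lemma Eig.sub {b : κ → ℂ} {A B : Matrix κ κ ℂ} {l m : ℂ} (h : Eig b A l)
    (h' : Eig b B m) : Eig b (A - B) (l - m) := by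
  unfold Eig at *
  rw [Matrix.sub_mulVec, h, h', sub_smul]

lemma Eig.smul {b : κ → ℂ} {A : Matrix κ κ ℂ} {l : ℂ} (h : Eig b A l) (c : ℂ) :
    Eig b (c • A) (c * l) := by
  unfold Eig at *
  rw [Matrix.smul_mulVec, h, mul_smul]

lemma Eig.mul {b : κ → ℂ} {A B : Matrix κ κ ℂ} {l m : ℂ} (h : Eig b A l)
    (h' : Eig b B m) : Eig b (A * B) (l * m) := by
  unfold Eig at *
  rw [← Matrix.mulVec_mulVec, h', Matrix.mulVec_smul, h, smul_smul, mul_comm]

lemma Eig.one (b : κ → ℂ) : Eig b 1 1 := by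
  unfold Eig
  rw [Matrix.one_mulVec, one_smul]

lemma Eig.pow {b : κ → ℂ} {A : Matrix κ κ ℂ} {l : ℂ} (h : Eig b A l) (n : ℕ) :
    Eig b (A ^ n) (l ^ n) := by
  induction n with
  | zero => simpa using Eig.one b
  | succ n ih =>
    rw [pow_succ, pow_succ]
    exact ih.mul h

lemma Eig.sum {ι : Type*} {b : κ → ℂ} {A : ι → Matrix κ κ ℂ} {l : ι → ℂ}
    (s : Finset ι) (h : ∀ i ∈ s, Eig b (A i) (l i)) : Eig b (∑ i ∈ s, A i) (∑ i ∈ s, l i) := by
  classical
  induction s using Finset.induction_on with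
  | empty =>
    unfold Eig
    simp
  | insert a s ha ih =>
    rw [Finset.sum_insert ha, Finset.sum_insert ha]
    exact (h a (Finset.mem_insert_self a s)).add (ih fun i hi => h i (Finset.mem_insert_of_mem hi))

lemma det_eig (b : Module.Basis κ ℂ (κ → ℂ)) {A : Matrix κ κ ℂ}
    {l : κ → ℂ} (h : ∀ i, Eig (b i) A (l i)) : A.det = ∏ i, l i := by
  have h1 : LinearMap.toMatrix b b (Matrix.toLin' A) = Matrix.diagonal l := by
    ext i j
    rw [LinearMap.toMatrix_apply, Matrix.toLin'_apply, h j, map_smul]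
    simp only [Module.Basis.repr_self, Finsupp.smul_apply, Finsupp.single_apply, smul_eq_mul,
      Matrix.diagonal_apply]
    by_cases hij : i = j
    · subst hij
      simp
    · rw [if_neg (fun h => hij h.symm), if_neg hij, mul_zero]
  rw [← LinearMap.det_toLin', ← LinearMap.det_toMatrix b, h1, Matrix.det_diagonal]

/-- the simultaneous eigenvectors of the matrices -/
theorem exists_eig {G : Type} [CommGroup G] [Finite G] (ρ : G →* GL κ ℂ) :
    ∃ (b : Module.Basis κ ℂ (κ → ℂ)) (χ : κ → MulChar G ℂ),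
      ∀ (u : G) i, Eig (b i) (cM (ρ u)) (χ i u) := by
  let T : G →* Module.End ℂ (κ → ℂ) :=
    { toFun := fun u => Matrix.toLin' (cM (ρ u))
      map_one' := by
        rw [map_one, cM_one, Matrix.toLin'_one]
        rfl
      map_mul' := fun x y => by
        rw [map_mul, cM_mul, Matrix.toLin'_mul]
        rfl }
  obtain ⟨b, χ, h⟩ := exists_basis T
  refine ⟨b, χ, fun u i => ?_⟩
  have := h u i
  exact this

end mat

section rep

open WeierstrassCurve

open scoped Classical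

variable {H : Type} [Field H] [NumberField H] {κ : Type} [Fintype κ] [DecidableEq κ]

/-- the mean value of `ρ` over the Frobenius automorphisms -/
noncomputable def frobM (ρ : (H ≃ₐ[ℚ] H) →* GL κ ℂ) (v : HeightOneSpectrum (𝓞 H)) :
    Matrix κ κ ℂ :=
  (Nat.card (FrobSet v) : ℂ)⁻¹ • ∑ᶠ σ : FrobSet v, (ρ σ.1 : Matrix κ κ ℂ)

/-- the Euler factor -/
noncomputable def euler (ρ : (H ≃ₐ[ℚ] H) →* GL κ ℂ) (W : WeierstrassCurve ℤ)
    (v : HeightOneSpectrum (𝓞 H)) (s : ℂ) (p : ℕ) : ℂ :=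
  (1 - ((((p : ℤ) - Pool.Agent.K4H53.BSX.D.pts W (ZMod p) : ℤ) : ℂ) * (p : ℂ) ^ (-s)) • frobM ρ v +
    (if (p : ℤ) ∣ W.Δ then 0 else (p : ℂ) ^ (1 - 2 * s)) • frobM ρ v ^ 2).det⁻¹

/-- descent to the group of the residue classes -/
lemma exists_R {n : ℕ} {c : (H ≃ₐ[ℚ] H) →* (ZMod n)ˣ} (hc : Function.Surjective c)
    {ρ : (H ≃ₐ[ℚ] H) →* GL κ ℂ} (h : ∀ σ, c σ = 1 → ρ σ = 1) :
    ∃ R : (ZMod n)ˣ →* GL κ ℂ, ∀ σ, R (c σ) = ρ σ := by
  refine ⟨(c.liftOfSurjective hc) ⟨ρ, fun σ hσ => h σ hσ⟩, fun σ => ?_⟩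
  exact MonoidHom.liftOfRightInverse_comp_apply _ _ _ _ _

/-- the Dirichlet character of a character of the group of units -/
noncomputable def dch {n : ℕ} (χ : MulChar (ZMod n)ˣ ℂ) : DirichletCharacter ℂ n :=
  MulChar.ofUnitHom (χ.toUnitHom.comp (toUnits (G := (ZMod n)ˣ)).toMonoidHom)

lemma dch_coe {n : ℕ} (χ : MulChar (ZMod n)ˣ ℂ) (u : (ZMod n)ˣ) : dch χ (u : ZMod n) = χ u := by
  unfold dch
  rw [MulChar.ofUnitHom_coe]
  rfl

lemma frob_eig (hA : S_AVG) {n : ℕ} [NeZero n] {c : (H ≃ₐ[ℚ] H) →* (ZMod n)ˣ}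
    {R : (ZMod n)ˣ →* GL κ ℂ} {ρ : (H ≃ₐ[ℚ] H) →* GL κ ℂ} (hR : ∀ σ, R (c σ) = ρ σ)
    {b : Module.Basis κ ℂ (κ → ℂ)} {χ : κ → MulChar (ZMod n)ˣ ℂ}
    (hb : ∀ (u : (ZMod n)ˣ) i, Eig (b i) (cM (R u)) (χ i u))
    {v : HeightOneSpectrum (𝓞 H)} {p : ℕ} (hp : p.Prime)
    (h1 : ∀ σ ∈ FrobSet v, fr n p (c σ))
    (h2 : ∃ k : ℕ, 0 < k ∧ ∀ u : (ZMod n)ˣ, fr n p u →
      Nat.card {σ // σ ∈ FrobSet v ∧ c σ = u} = k) (i : κ) :
    Eig (b i) (frobM ρ v) ((dch (χ i)).primitiveCharacter ((p : ℕ) : ZMod (dch (χ i)).conductor)) := by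
  obtain ⟨k, hk, h2⟩ := h2
  let _ : Fintype (FrobSet v) := Fintype.ofFinite _
  set F : Finset (ZMod n)ˣ := Finset.univ.filter (fr n p) with hF
  obtain ⟨hC, hsum⟩ := hA n (dch (χ i)) p hp
  -- the fibres
  have hcard : ∀ u ∈ F, (Finset.univ.filter fun σ : FrobSet v => c σ.1 = u).card = k := by
    intro u hu
    rw [← h2 u (Finset.mem_filter.1 hu).2, ← Fintype.card_subtype, ← Nat.card_eq_fintype_card]
    exact Nat.card_congr
      ⟨fun σ => ⟨σ.1.1, σ.1.2, σ.2⟩, fun σ => ⟨⟨σ.1, σ.2.1⟩, σ.2.2⟩, fun σ => rfl, fun σ => rfl⟩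
  have hmap : ∀ σ : FrobSet v, c σ.1 ∈ F := fun σ =>
    Finset.mem_filter.2 ⟨Finset.mem_univ _, h1 σ.1 σ.2⟩
  have hN : (Nat.card (FrobSet v) : ℂ) = (F.card : ℂ) * k := by
    rw [Nat.card_eq_fintype_card, ← Finset.card_univ,
      Finset.card_eq_sum_card_fiberwise (f := fun σ : FrobSet v => c σ.1) (t := F)
        (fun σ _ => hmap σ), Finset.sum_congr rfl hcard, Finset.sum_const, smul_eq_mul]
    push_cast
    ring
  have hE : Eig (b i) (∑ σ : FrobSet v, cM (ρ σ.1)) (∑ σ : FrobSet v, χ i (c σ.1)) := by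
    refine Eig.sum Finset.univ fun σ _ => ?_
    rw [← hR]
    exact hb _ i
  have hS : ∑ σ : FrobSet v, χ i (c σ.1) = (k : ℂ) * ∑ u ∈ F, χ i u := by
    rw [← Finset.sum_fiberwise_of_maps_to (g := fun σ : FrobSet v => c σ.1) (t := F)
      (fun σ _ => hmap σ), Finset.mul_sum]
    refine Finset.sum_congr rfl fun u hu => ?_
    rw [Finset.sum_congr rfl (g := fun _ => χ i u) (fun σ hσ => by rw [(Finset.mem_filter.1 hσ).2]),
      Finset.sum_const, hcard u hu, nsmul_eq_mul]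
  have hS2 : ∑ u ∈ F, χ i u = (F.card : ℂ) *
      (dch (χ i)).primitiveCharacter ((p : ℕ) : ZMod (dch (χ i)).conductor) := by
    rw [← hsum]
    exact Finset.sum_congr rfl fun u _ => (dch_coe (χ i) u).symm
  have hE2 := hE.smul (Nat.card (FrobSet v) : ℂ)⁻¹
  have e1 : (Nat.card (FrobSet v) : ℂ)⁻¹ • ∑ σ : FrobSet v, cM (ρ σ.1) = frobM ρ v := by
    unfold frobM
    rw [finsum_eq_sum_of_fintype]
    rfl
  rw [e1, hS, hS2, hN] at hE2
  have hC0 : (F.card : ℂ) ≠ 0 := by exact_mod_cast hC.ne'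
  have hk0 : (k : ℂ) ≠ 0 := by exact_mod_cast hk.ne'
  have e2 : ((F.card : ℂ) * k)⁻¹ * (k * ((F.card : ℂ) *
      (dch (χ i)).primitiveCharacter ((p : ℕ) : ZMod (dch (χ i)).conductor))) =
      (dch (χ i)).primitiveCharacter ((p : ℕ) : ZMod (dch (χ i)).conductor) := by
    field_simp
  rw [e2] at hE2
  exact hE2

end rep

end Pool.Agent.K4H53.AP
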