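import Pool.Agent.K4H53.AP.Mn

/-!
# The pairs; the value over `ℚ`
-/

set_option autoImplicit false
set_option linter.unusedSectionVars false

open NumberField IsDedekindDomain WeierstrassCurve MeasureTheory
open UpperHalfPlane MatrixGroups CongruenceSubgroup

open scoped Classical Kronecker

namespace Pool.Agent.K4H53.AP

open Pool.Agent.K4H53.BSX.D

/-- the value over `ℚ` -/
lemma odd_value {W : WeierstrassCurve ℤ} {N : ℕ} [NeZero N]
    {f : CuspForm (Gamma0 N : Subgroup (GL (Fin 2) ℝ)) 2} (hf : IsNewform W N f) (hW : W.Δ ≠ 0)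
    (q : ℕ) (hq : q.Prime) (hqΔ : ¬ (q : ℤ) ∣ 2 * W.Δ) (hqo : Odd ((q : ℤ) - pts W (ZMod q)))
    (hb : BSDModTwo ℚ W) (hrk : rank ℚ W = 0) (hsha : Sha2 ℚ W = {0}) (htam : Odd (Tam ℚ W)) :
    ∃ a b : ℤ, Odd a ∧ Odd b ∧ (b : ℂ) * Pool.Agent.Y18.BSD.bv f 0 = a * (realPeriod W : ℂ) := by
  obtain ⟨x, hx, hxd, hxn⟩ := hb
  have hxo : Odd x.num := hxn.2 ⟨hrk, hsha, htam⟩
  obtain ⟨L, hL1, hL2, hL3⟩ := hx
  have hfI := isForm hf
  obtain ⟨H, hH1, hH2, hH3⟩ := Pool.Agent.R425.G.exists_LQ hfI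
  have hLH : L = H := Pool.Agent.R425.G.L_uniq (W := W) (K := ℚ) hL1 hH1 hL2 hH2
  have hto : Odd (Nat.card (tors ℚ W)) :=
    Pool.Agent.R425.G.tors_odd W hW (Pool.Agent.R425.G.no_root_Q W (l := q) hq hqΔ hqo)
  set T : ℕ := Nat.card (tors ℚ W) with hTdef
  rw [hLH, hH3] at hL3
  have hOm : Omega ℚ W = realPeriod W := by
    unfold Omega
    rw [NumberField.InfinitePlace.nrRealPlaces_eq_one_of_finrank_eq_one (Module.finrank_self ℚ),
      NumberField.InfinitePlace.nrComplexPlaces_eq_zero_of_finrank_eq_one (Module.finrank_self ℚ),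
      pow_one, pow_zero, mul_one]
  refine ⟨x.num, x.den * (T : ℤ) ^ 2, hxo, ?_, ?_⟩
  · exact Odd.mul (by exact_mod_cast hxd) (Odd.pow (by exact_mod_cast hto))
  · rw [hOm] at hL3
    have hx : (x : ℂ) = (x.num : ℂ) / (x.den : ℂ) := by
      conv_lhs => rw [← Rat.num_div_den x]
      push_cast
      rfl
    have hd : (x.den : ℂ) ≠ 0 := by exact_mod_cast x.den_nz
    rw [hx] at hL3
    simp only [Rat.numberField_discr, Int.cast_one, abs_one, Real.sqrt_one, Complex.ofReal_one,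
      mul_one] at hL3
    push_cast
    field_simp at hL3
    linear_combination hL3

/-- an involution of determinant `-1` has trace zero -/
lemma trace_zero {A : Matrix (Fin 2) (Fin 2) ℂ} (h : A * A = 1) (hd : A.det = -1) : A.trace = 0 := by
  have h1 : A * A = !![A 0 0 * A 0 0 + A 0 1 * A 1 0, A 0 0 * A 0 1 + A 0 1 * A 1 1;
      A 1 0 * A 0 0 + A 1 1 * A 1 0, A 1 0 * A 0 1 + A 1 1 * A 1 1] := by
    rw [← Matrix.mul_fin_two]
    congr 1 <;> exact Matrix.eta_fin_two A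
  rw [h1] at h
  have e00 := congrFun (congrFun h 0) 0
  have e11 := congrFun (congrFun h 1) 1
  simp at e00 e11
  rw [Matrix.det_fin_two] at hd
  rw [Matrix.trace_fin_two]
  have h2 : (A 0 0 + A 1 1) ^ 2 = 0 := by linear_combination e00 + e11 + 2 * hd
  exact pow_eq_zero_iff (two_ne_zero) |>.1 h2

end Pool.Agent.K4H53.AP
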