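import Pool.Agent.K4H53.AP.RedA

/-!
# The cyclotomic character of a Galois number field, and the set of the Frobenius automorphisms
-/

set_option autoImplicit false

open NumberField IsDedekindDomain Polynomial

open scoped Pointwise

namespace Pool.Agent.K4H53.AP.Rd

section nf

theorem hom_aeval {A B : Type} [CommRing A] [CommRing B] (φ : A →+* B) (x : A) (g : ℤ[X]) :
    φ (aeval x g) = aeval (φ x) g :=
  (aeval_algHom_apply φ.toIntAlgHom x g).symm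

variable {H : Type} [Field H] [NumberField H]

theorem coe_pow' (x : 𝓞 H) (k : ℕ) : ((x ^ k : 𝓞 H) : H) = (x : H) ^ k :=
  map_pow (algebraMap (𝓞 H) H) x k

theorem coe_aeval' (x : 𝓞 H) (g : ℤ[X]) : ((aeval x g : 𝓞 H) : H) = aeval (x : H) g :=
  hom_aeval (algebraMap (𝓞 H) H) x g

theorem coe_one' : ((1 : 𝓞 H) : H) = 1 := map_one (algebraMap (𝓞 H) H)

theorem fixed_mem [IsGalois ℚ H] (n : ℕ) [NeZero n] (ζ : H) (hζ : IsPrimitiveRoot ζ n) (a : 𝓞 H)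
    (ha : ∀ σ : H ≃ₐ[ℚ] H, σ ζ = ζ → σ (a : H) = a) : ∃ g : ℤ[X], (a : H) = aeval ζ g := by
  let M := IntermediateField.adjoin ℚ {ζ}
  have hcy : IsCyclotomicExtension {n} ℚ M := hζ.intermediateField_adjoin_isCyclotomicExtension ℚ
  have haM : (a : H) ∈ M := by
    rw [← IsGalois.fixedField_fixingSubgroup M, IntermediateField.mem_fixedField_iff]
    intro σ hσ
    refine ha σ ?_
    exact (IntermediateField.mem_fixingSubgroup_iff M σ).1 hσ ζ
      (IntermediateField.mem_adjoin_simple_self ℚ ζ)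
  let z : M := IntermediateField.AdjoinSimple.gen ℚ ζ
  have hz : IsPrimitiveRoot z n :=
    IsPrimitiveRoot.of_map_of_injective (f := algebraMap M H) hζ (algebraMap M H).injective
  have hint : IsIntegral ℤ (⟨a, haM⟩ : M) := by
    have h1 : IsIntegral ℤ (algebraMap M H ⟨a, haM⟩) := a.isIntegral_coe
    exact (isIntegral_algebraMap_iff (algebraMap M H).injective).1 h1
  have hcl := IsCyclotomicExtension.Rat.isIntegralClosure_adjoin_singleton (K := M) hz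
  obtain ⟨y, hy⟩ := (hcl.isIntegral_iff).1 hint
  have hy2 : (y : M) ∈ (aeval z : ℤ[X] →ₐ[ℤ] M).range := by
    rw [← Algebra.adjoin_singleton_eq_range_aeval]
    exact y.2
  obtain ⟨g, hg⟩ := hy2
  refine ⟨g, ?_⟩
  have h1 : (aeval z g : M) = ⟨a, haM⟩ := by
    rw [← hy]
    exact hg
  have h2 := congrArg (algebraMap M H) h1
  rw [hom_aeval] at h2
  exact h2.symm

theorem exists_of_unit [IsGalois ℚ H] (n : ℕ) [NeZero n] (ζ : H) (hζ : IsPrimitiveRoot ζ n)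
    (m : ℕ) (hm : m.Coprime n) : ∃ σ : H ≃ₐ[ℚ] H, σ ζ = ζ ^ m := by
  have hpos : 0 < n := Nat.pos_of_ne_zero (NeZero.ne n)
  have h1 := Polynomial.cyclotomic_eq_minpoly_rat hζ hpos
  have h2 := Polynomial.cyclotomic_eq_minpoly_rat (hζ.pow_of_coprime m hm) hpos
  refine minpoly.exists_algEquiv_of_root' (Algebra.IsAlgebraic.isAlgebraic ζ) ?_
  rw [← h1, h2]
  exact minpoly.aeval ℚ _

theorem card_quot (v : HeightOneSpectrum (𝓞 H)) (p : ℕ) (hp : p.Prime)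
    (hpv : (p : 𝓞 H) ∈ v.asIdeal) : Nat.card (ℤ ⧸ v.asIdeal.under ℤ) = p := by
  have h1 : (Ideal.span {(p : ℤ)}).IsMaximal :=
    PrincipalIdealRing.isMaximal_of_irreducible (Nat.prime_iff_prime_int.1 hp).irreducible
  have h2 : Ideal.span {(p : ℤ)} = v.asIdeal.under ℤ := by
    refine h1.eq_of_le ?_ ?_
    · haveI : (v.asIdeal.under ℤ).IsPrime := inferInstance
      exact this.ne_top
    · rw [Ideal.span_singleton_le_iff_mem, Ideal.mem_comap]
      simpa using hpv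
  rw [← h2, Nat.card_congr (Int.quotientSpanEquivZMod (p : ℤ)).toEquiv, Nat.card_zmod]
  simp

theorem isMax (v : HeightOneSpectrum (𝓞 H)) : v.asIdeal.IsMaximal := v.isMaximal

theorem mk_pow (n : ℕ) [NeZero n] (v : HeightOneSpectrum (𝓞 H)) (p : ℕ) (hp : p.Prime)
    (hpv : (p : 𝓞 H) ∈ v.asIdeal) (z : 𝓞 H) (hz : z ^ n = 1) (a b : ℕ)
    (hab : (a : ZMod (ordCompl[p] n)) = b) :
    (Ideal.Quotient.mk v.asIdeal z) ^ a = (Ideal.Quotient.mk v.asIdeal z) ^ b := by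
  have hM := isMax v
  let _ : Field (𝓞 H ⧸ v.asIdeal) := Ideal.Quotient.field v.asIdeal
  have hF : Fact p.Prime := ⟨hp⟩
  have hC : CharP (𝓞 H ⧸ v.asIdeal) p := by
    have h0 : ((p : ℕ) : 𝓞 H ⧸ v.asIdeal) = 0 := by
      have h1 := Ideal.Quotient.eq_zero_iff_mem.2 hpv
      simpa using h1
    exact (CharP.charP_iff_prime_eq_zero hp).2 h0
  have hE : ExpChar (𝓞 H ⧸ v.asIdeal) p := ExpChar.prime hp
  set w := Ideal.Quotient.mk v.asIdeal z with hw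
  have h1 : w ^ (ordCompl[p] n) = 1 := by
    have h2 : w ^ (p ^ (n.factorization p) * ordCompl[p] n) = 1 := by
      rw [Nat.ordProj_mul_ordCompl_eq_self, hw, ← map_pow, hz, map_one]
    exact (ExpChar.pow_prime_pow_mul_eq_one_iff p _ _ w).1 h2
  have h3 : a ≡ b [MOD orderOf w] :=
    Nat.ModEq.of_dvd (orderOf_dvd_of_pow_eq_one h1) ((ZMod.natCast_eq_natCast_iff _ _ _).1 hab)
  rw [← pow_mod_orderOf w a, ← pow_mod_orderOf w b, h3]

/-- `u ≡ p` modulo the prime-to-`p` part of `n` -/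
def fr' (n p : ℕ) (u : (ZMod n)ˣ) : Prop :=
  (((u : ZMod n).val : ℕ) : ZMod (ordCompl[p] n)) = ((p : ℕ) : ZMod (ordCompl[p] n))

theorem smul_coe (σ : H ≃ₐ[ℚ] H) (x : 𝓞 H) : ((σ • x : 𝓞 H) : H) = σ (x : H) := rfl

theorem pow_inj_unit (n : ℕ) [NeZero n] (ζ : H) (hζ : IsPrimitiveRoot ζ n) (u v : (ZMod n)ˣ)
    (h : ζ ^ ((u : ZMod n).val) = ζ ^ ((v : ZMod n).val)) : u = v := by
  have h1 := hζ.pow_inj (ZMod.val_lt _) (ZMod.val_lt _) h
  exact Units.ext (ZMod.val_injective n h1)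

theorem val_coprime (n : ℕ) (u : (ZMod n)ˣ) : ((u : ZMod n).val).Coprime n :=
  ZMod.val_coe_unit_coprime u

/-- Part (i): the character of a Frobenius automorphism. -/
theorem frob_fr (n : ℕ) [NeZero n] (ζ : H) (hζ : IsPrimitiveRoot ζ n)
    (v : HeightOneSpectrum (𝓞 H)) (p : ℕ) (hp : p.Prime) (hpv : (p : 𝓞 H) ∈ v.asIdeal)
    (σ : H ≃ₐ[ℚ] H) (hσ : IsArithFrobAt ℤ σ v.asIdeal) (u : (ZMod n)ˣ)
    (hu : σ ζ = ζ ^ ((u : ZMod n).val)) : fr' n p u := by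
  have hM := isMax v
  have hn : n ≠ 0 := NeZero.ne n
  set m := ordCompl[p] n with hm
  have hm0 : 0 < m := Nat.ordCompl_pos p hn
  have hnm : p ^ (n.factorization p) * m = n := Nat.ordProj_mul_ordCompl_eq_self n p
  have hζ' : IsPrimitiveRoot (ζ ^ (p ^ (n.factorization p))) m :=
    hζ.pow (Nat.pos_of_ne_zero hn) hnm.symm
  have hint : IsIntegral ℤ (ζ ^ (p ^ (n.factorization p))) := hζ'.isIntegral hm0
  let z : 𝓞 H := ⟨ζ ^ (p ^ (n.factorization p)), hint⟩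
  have hz : (z : H) = ζ ^ (p ^ (n.factorization p)) := rfl
  have hz1 : z ^ m = 1 := by
    apply RingOfIntegers.ext
    exact (coe_pow' z m).trans (hζ'.pow_eq_one.trans coe_one'.symm)
  have hmv : (m : 𝓞 H) ∉ v.asIdeal := by
    intro h
    have hcop : IsCoprime (m : ℤ) (p : ℤ) := by
      rw [Nat.isCoprime_iff_coprime]
      exact (Nat.coprime_ordCompl hp hn).symm
    obtain ⟨a, b, hab⟩ := hcop
    have h1 : ((a : 𝓞 H) * m + b * p) = 1 := by
      have := congrArg (Int.cast : ℤ → 𝓞 H) hab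
      simpa using this
    have h2 : (1 : 𝓞 H) ∈ v.asIdeal := by
      rw [← h1]
      exact v.asIdeal.add_mem (v.asIdeal.mul_mem_left _ h) (v.asIdeal.mul_mem_left _ hpv)
    exact hM.ne_top ((Ideal.eq_top_iff_one _).2 h2)
  have h1 := AlgHom.IsArithFrobAt.apply_of_pow_eq_one hσ hz1 hmv
  rw [card_quot v p hp hpv] at h1
  have h2 := congrArg (fun x : 𝓞 H => (x : H)) h1
  have h3 : (ζ ^ (p ^ (n.factorization p))) ^ ((u : ZMod n).val) =
      (ζ ^ (p ^ (n.factorization p))) ^ p := by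
    have h4 : σ (ζ ^ (p ^ (n.factorization p))) = (ζ ^ (p ^ (n.factorization p))) ^ p := by
      have h5 : (((MulSemiringAction.toAlgHom ℤ (𝓞 H) σ) z : 𝓞 H) : H) =
          σ (ζ ^ (p ^ (n.factorization p))) := rfl
      rw [← h5, ← hz, ← map_pow]
      exact h2
    rw [← h4, map_pow, hu, ← pow_mul, ← pow_mul, mul_comm]
  rw [← pow_mod_orderOf, ← pow_mod_orderOf _ p, ← hζ'.eq_orderOf] at h3
  have h6 := hζ'.pow_inj (Nat.mod_lt _ hm0) (Nat.mod_lt _ hm0) h3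
  unfold fr'
  rw [ZMod.natCast_eq_natCast_iff]
  exact h6

/-- Part (ii): existence. -/
theorem exists_frob [IsGalois ℚ H] (n : ℕ) [NeZero n] (ζ : H) (hζ : IsPrimitiveRoot ζ n)
    (v : HeightOneSpectrum (𝓞 H)) (p : ℕ) (hp : p.Prime) (hpv : (p : 𝓞 H) ∈ v.asIdeal)
    (u : (ZMod n)ˣ) (hu : fr' n p u) :
    ∃ σ : H ≃ₐ[ℚ] H, IsArithFrobAt ℤ σ v.asIdeal ∧ σ ζ = ζ ^ ((u : ZMod n).val) := by
  have hM := isMax v
  have hn : n ≠ 0 := NeZero.ne n
  let _ : Field (𝓞 H ⧸ v.asIdeal) := Ideal.Quotient.field v.asIdeal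
  have hF : Fact p.Prime := ⟨hp⟩
  have hC : CharP (𝓞 H ⧸ v.asIdeal) p := by
    have h0 : ((p : ℕ) : 𝓞 H ⧸ v.asIdeal) = 0 := by
      have h1 := Ideal.Quotient.eq_zero_iff_mem.2 hpv
      simpa using h1
    exact (CharP.charP_iff_prime_eq_zero hp).2 h0
  obtain ⟨σ₁, hσ₁⟩ := exists_of_unit n ζ hζ _ (val_coprime n u)
  have hint : IsIntegral ℤ ζ := hζ.isIntegral (Nat.pos_of_ne_zero hn)
  let z : 𝓞 H := ⟨ζ, hint⟩
  have hz : (z : H) = ζ := rfl
  have hz1 : z ^ n = 1 := by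
    apply RingOfIntegers.ext
    exact (coe_pow' z n).trans (hζ.pow_eq_one.trans coe_one'.symm)
  obtain ⟨ρ, hρ, h⟩ := exists_lift (G := H ≃ₐ[ℚ] H) v.asIdeal p hp hpv
    (MulAction.stabilizer (H ≃ₐ[ℚ] H) ζ) σ₁ (fun a ha => by
      obtain ⟨g, hg⟩ := fixed_mem n ζ hζ a (fun σ hσ => by
        have h1 := ha σ (by rw [MulAction.mem_stabilizer_iff]; exact hσ)
        have h2 := congrArg (fun x : 𝓞 H => (x : H)) h1
        exact h2)
      have ha2 : a = aeval z g := by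
        apply RingOfIntegers.ext
        exact hg.trans (coe_aeval' z g).symm
      have h3 : σ₁ • a = aeval (z ^ ((u : ZMod n).val)) g := by
        have h4 : σ₁ • a = (MulSemiringAction.toRingHom (H ≃ₐ[ℚ] H) (𝓞 H) σ₁) a := rfl
        have h5 : (MulSemiringAction.toRingHom (H ≃ₐ[ℚ] H) (𝓞 H) σ₁) z =
            z ^ ((u : ZMod n).val) := by
          apply RingOfIntegers.ext
          exact hσ₁.trans (coe_pow' z _).symm
        rw [h4, ha2, hom_aeval, h5]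
      rw [← Ideal.Quotient.eq, h3, map_pow, hom_aeval, map_pow,
        mk_pow n v p hp hpv z hz1 _ _ hu, ha2, hom_aeval, ← frobenius_def, ← frobenius_def,
        hom_aeval])
  refine ⟨σ₁ * ρ, ?_, ?_⟩
  · intro x
    rw [card_quot v p hp hpv]
    exact h x
  · have h1 : ρ ζ = ζ := MulAction.mem_stabilizer_iff.1 hρ
    rw [AlgEquiv.mul_apply, h1, hσ₁]

theorem red_core [IsGalois ℚ H] (n : ℕ) [NeZero n] (ζ : H) (hζ : IsPrimitiveRoot ζ n) :
    ∃ c : (H ≃ₐ[ℚ] H) →* (ZMod n)ˣ, Function.Surjective c ∧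
      (∀ σ : H ≃ₐ[ℚ] H, σ ζ = ζ ^ ((c σ : ZMod n).val)) ∧
      ∀ (v : HeightOneSpectrum (𝓞 H)) (p : ℕ), p.Prime → (p : 𝓞 H) ∈ v.asIdeal →
        (∀ σ : H ≃ₐ[ℚ] H, IsArithFrobAt ℤ σ v.asIdeal → fr' n p (c σ)) ∧
        ∃ k : ℕ, 0 < k ∧ ∀ u : (ZMod n)ˣ, fr' n p u →
          Nat.card {σ : H ≃ₐ[ℚ] H // IsArithFrobAt ℤ σ v.asIdeal ∧ c σ = u} = k := by
  have hc : ∀ σ : H ≃ₐ[ℚ] H, σ ζ = ζ ^ ((hζ.autToPow ℚ σ : ZMod n).val) := fun σ =>
    (hζ.autToPow_spec ℚ σ).symm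
  refine ⟨hζ.autToPow ℚ, ?_, hc, ?_⟩
  · intro u
    obtain ⟨σ, hσ⟩ := exists_of_unit n ζ hζ _ (val_coprime n u)
    refine ⟨σ, pow_inj_unit n ζ hζ _ _ ?_⟩
    rw [← hc, hσ]
  · intro v p hp hpv
    refine ⟨fun σ hσ => frob_fr n ζ hζ v p hp hpv σ hσ _ (hc σ), ?_⟩
    refine ⟨Nat.card {τ : H ≃ₐ[ℚ] H // (∀ x : 𝓞 H, τ • x - x ∈ v.asIdeal) ∧
      hζ.autToPow ℚ τ = 1}, ?_, ?_⟩
    · have h1 : Nonempty {τ : H ≃ₐ[ℚ] H // (∀ x : 𝓞 H, τ • x - x ∈ v.asIdeal) ∧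
          hζ.autToPow ℚ τ = 1} := ⟨⟨1, fun x => by rw [one_smul, sub_self]; exact v.asIdeal.zero_mem,
            map_one _⟩⟩
      exact Nat.card_pos
    · intro u hu
      obtain ⟨σ₀, h0, h0'⟩ := exists_frob n ζ hζ v p hp hpv u hu
      have h0u : hζ.autToPow ℚ σ₀ = u := pow_inj_unit n ζ hζ _ _ (by rw [← hc, h0'])
      have hq := card_quot v p hp hpv
      have h0x : ∀ x : 𝓞 H, σ₀ • x - x ^ p ∈ v.asIdeal := by
        intro x
        have := h0 x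
        rw [hq] at this
        exact this
      refine Nat.card_congr ⟨fun σ => ⟨σ.1 * σ₀⁻¹, ?_, ?_⟩, fun τ => ⟨τ.1 * σ₀, ?_, ?_⟩, ?_, ?_⟩
      · intro x
        have h1 := σ.2.1 (σ₀⁻¹ • x)
        rw [hq] at h1
        have h2 := h0x (σ₀⁻¹ • x)
        have h3 := v.asIdeal.sub_mem h1 h2
        rw [smul_inv_smul] at h3
        rw [mul_smul]
        have h4 : (MulSemiringAction.toAlgHom ℤ (𝓞 H) σ.1) (σ₀⁻¹ • x) = σ.1 • σ₀⁻¹ • x := rfl
        rw [h4] at h3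
        convert h3 using 1
        ring
      · rw [map_mul, map_inv, σ.2.2, h0u, mul_inv_cancel]
      · intro x
        rw [hq]
        have h1 := τ.2.1 (σ₀ • x)
        have h3 := v.asIdeal.add_mem h1 (h0x x)
        have h4 : (MulSemiringAction.toAlgHom ℤ (𝓞 H) (τ.1 * σ₀)) x = τ.1 • σ₀ • x := mul_smul _ _ _
        rw [h4]
        convert h3 using 1
        ring
      · rw [map_mul, τ.2.2, h0u, one_mul]
      · intro σ
        exact Subtype.ext (inv_mul_cancel_right _ _)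
      · intro τ
        exact Subtype.ext (mul_inv_cancel_right _ _)

end nf

end Pool.Agent.K4H53.AP.Rd
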