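import Pool.Agent.K4H53.AP.Stm
import Pool.Agent.K4H53.AP.RedB

/-!
# Piece RED
-/

set_option autoImplicit false

open NumberField IsDedekindDomain

namespace Pool.Agent.K4H53.AP

theorem s_red : S_RED := by
  intro n _ H _ _ _ ζ hζ
  obtain ⟨c, h1, h2, h3⟩ := Rd.red_core n ζ hζ
  exact ⟨c, h1, h2, fun v p hp hpv => ⟨(h3 v p hp hpv).1, (h3 v p hp hpv).2⟩⟩

end Pool.Agent.K4H53.AP
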