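import Pool.Agent.K4H53.AP.Stm

/-!
# Equivariant maps to the group of the points of a finite layer
-/

set_option autoImplicit false

open NumberField IsDedekindDomain WeierstrassCurve

open scoped Classical TensorProduct

namespace Pool.Agent.K4H53.AP

section fixed

variable (W : WeierstrassCurve ℤ) {H : Type} [Field H] [NumberField H]

lemma act_mul (σ τ : H ≃ₐ[ℚ] H) (P : Pts W H) : act W (σ * τ) P = act W σ (act W τ P) := by
  rcases P with _ | ⟨x, y, hxy⟩ <;> rfl

/-- The inclusion of the points of a subfield. -/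
noncomputable def incl (K : IntermediateField ℚ H) : Pts W K →+ Pts W H :=
  Affine.Point.map (W' := (W.map (Int.castRingHom ℚ)).toAffine) K.val

/-- The points fixed by `N` come from the fixed field of `N`. -/
lemma exists_of_fixed (N : Subgroup (H ≃ₐ[ℚ] H)) (P : Pts W H) (h : ∀ τ ∈ N, act W τ P = P) :
    ∃ Q : Pts W (IntermediateField.fixedField N), incl W (IntermediateField.fixedField N) Q = P := by
  rcases P with _ | ⟨x, y, hxy⟩
  · exact ⟨0, rfl⟩
  · have hx : x ∈ IntermediateField.fixedField N := by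
      rw [IntermediateField.mem_fixedField_iff]
      intro τ hτ
      have h1 := h τ hτ
      exact (Affine.Point.some.inj h1).1
    have hy : y ∈ IntermediateField.fixedField N := by
      rw [IntermediateField.mem_fixedField_iff]
      intro τ hτ
      have h1 := h τ hτ
      exact (Affine.Point.some.inj h1).2
    have hQ := (Affine.baseChange_nonsingular (W.map (Int.castRingHom ℚ)).toAffine
        (f := (IntermediateField.fixedField N).val)
        (RingHom.injective (IntermediateField.fixedField N).val.toRingHom)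
        (⟨x, hx⟩ : IntermediateField.fixedField N) ⟨y, hy⟩).mp hxy
    exact ⟨Affine.Point.some _ _ hQ, rfl⟩

/-- The trace of a point is killed by the number of the points over the fixed field. -/
lemma trace_killed (N : Subgroup (H ≃ₐ[ℚ] H)) [Fintype N]
    [Finite (Pts W (IntermediateField.fixedField N))] (P : Pts W H) :
    Nat.card (Pts W (IntermediateField.fixedField N)) •
      ∑ σ : N, act W (σ : H ≃ₐ[ℚ] H) P = 0 := by
  obtain ⟨Q, hQ⟩ := exists_of_fixed W N (∑ σ : N, act W (σ : H ≃ₐ[ℚ] H) P) (by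
    intro τ hτ
    rw [map_sum]
    have h1 : ∀ σ : N, act W τ (act W (σ : H ≃ₐ[ℚ] H) P)
        = act W ((⟨τ, hτ⟩ * σ : N) : H ≃ₐ[ℚ] H) P := fun σ => (act_mul W τ σ P).symm
    rw [Finset.sum_congr rfl fun σ _ => h1 σ]
    exact Fintype.sum_equiv (Equiv.mulLeft (⟨τ, hτ⟩ : N)) _ _ fun σ => rfl)
  rw [← hQ, ← map_nsmul, card_nsmul_eq_zero', map_zero]

end fixed

/-- No equivariant maps, if there are only finitely many points over the field cut out. -/
theorem s_trace : S_TRACE := by
  intro W H _ _ _ N hfin κ _ _ ρ hρ φ hφ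
  have hN : Fintype N := Fintype.ofFinite N
  set m := Nat.card (Pts W (IntermediateField.fixedField N)) with hm
  have hm0 : m ≠ 0 := Nat.card_pos.ne'
  have key : ∀ x : ℂ ⊗[ℤ] Pts W H, m • ∑ σ : N,
      (act W (σ : H ≃ₐ[ℚ] H)).toIntLinearMap.baseChange ℂ x = 0 := by
    intro x
    induction x using TensorProduct.induction_on with
    | zero => simp
    | tmul z P =>
      have h1 : ∀ σ : N, (act W (σ : H ≃ₐ[ℚ] H)).toIntLinearMap.baseChange ℂ (z ⊗ₜ[ℤ] P)
          = z ⊗ₜ[ℤ] (act W (σ : H ≃ₐ[ℚ] H) P) := fun σ => rfl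
      rw [Finset.sum_congr rfl fun σ _ => h1 σ, ← TensorProduct.tmul_sum, ← TensorProduct.tmul_smul,
        trace_killed W N P, TensorProduct.tmul_zero]
    | add x y hx hy =>
      simp only [map_add, Finset.sum_add_distrib, smul_add, hx, hy, add_zero]
  refine LinearMap.ext fun v => ?_
  rw [LinearMap.zero_apply]
  have h1 : ∀ σ : N, (act W (σ : H ≃ₐ[ℚ] H)).toIntLinearMap.baseChange ℂ (φ v) = φ v := by
    intro σ
    rw [← hφ (σ : H ≃ₐ[ℚ] H) v, hρ _ σ.2]
    simp
  have h2 := key (φ v)
  rw [Finset.sum_congr rfl fun σ _ => h1 σ, Finset.sum_const, Finset.card_univ, smul_smul,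
    ← Nat.cast_smul_eq_nsmul ℂ, smul_eq_zero] at h2
  rcases h2 with h2 | h2
  · exfalso
    rw [Nat.cast_eq_zero, mul_eq_zero] at h2
    rcases h2 with h2 | h2
    · exact hm0 h2
    · exact Fintype.card_ne_zero h2
  · exact h2

end Pool.Agent.K4H53.AP
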