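import Pool.Agent.K4H53.AP.Ev
import Pool.Agent.K4H53.AP.Avg
import Pool.Agent.K4H53.AP.Red
import Pool.Agent.K4H53.AP.Trc
import Pool.Agent.K4H53.BSX.Q11

/-!
# All the parts of the proof of `MP_60ff09_nt.AbelianTwoPairs`
-/
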