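import Pool.Agent.K4H53.AP.Lf

/-!
# Gauss sums at the valuations above two
-/

set_option autoImplicit false

open Finset

namespace Pool.Agent.K4H53.AP

section val

variable {Γ : Type} [LinearOrderedCommGroupWithZero Γ] {w : Valuation ℂ Γ}

lemma v_root {x : ℂ} {M : ℕ} (hM : M ≠ 0) (h : x ^ M = 1) : w x = 1 := by
  have h1 : w x ^ M = 1 := by rw [← map_pow, h, map_one]
  rcases lt_trichotomy (w x) 1 with h2 | h2 | h2
  · exact absurd h1 (pow_lt_one₀ zero_le' h2 hM).ne
  · exact h2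
  · exact absurd h1 (one_lt_pow₀ h2 hM).ne'

lemma v_nat (k : ℕ) : w (k : ℂ) ≤ 1 := by
  induction k with
  | zero => simp
  | succ k ih =>
    push_cast
    exact (w.map_add _ _).trans (max_le ih (by rw [map_one]))

lemma v_int (k : ℤ) : w (k : ℂ) ≤ 1 := by
  obtain ⟨n, rfl | rfl⟩ := k.eq_nat_or_neg
  · rw [Int.cast_natCast]; exact v_nat n
  · rw [Int.cast_neg, Valuation.map_neg, Int.cast_natCast]; exact v_nat n

lemma v_odd (hw : w 2 < 1) {k : ℤ} (hk : Odd k) : w (k : ℂ) = 1 := by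
  obtain ⟨j, rfl⟩ := hk
  have h1 : w ((2 * j : ℤ) : ℂ) < 1 := by
    push_cast
    rw [map_mul]
    calc w 2 * w (j : ℂ) ≤ w 2 * 1 := by gcongr; exact v_int j
      _ < 1 := by rw [mul_one]; exact hw
  have h2 : ((2 * j + 1 : ℤ) : ℂ) = 1 + ((2 * j : ℤ) : ℂ) := by push_cast; ring
  rw [h2, Valuation.map_add_eq_of_lt_left _ (by rw [map_one]; exact h1)]
  exact map_one _

/-- a combination of roots of unity of 2-power order -/
lemma v_rt2 (hw : w 2 < 1) {x : ℂ} {r : ℕ} (h : x ^ 2 ^ r = 1) : w (x - 1) < 1 := by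
  have key : ∀ (r : ℕ) (x : ℂ), w x ≤ 1 → w (x ^ 2 ^ r - 1) < 1 → w (x - 1) < 1 := by
    intro r
    induction r with
    | zero => intro x _ h; simpa using h
    | succ r ih =>
      intro x hx h
      have h1 : w ((x ^ 2) ^ 2 ^ r - 1) < 1 := by
        rw [← pow_mul, ← pow_succ']; exact h
      have h2 := ih (x ^ 2) (by rw [map_pow]; exact pow_le_one₀ zero_le' hx) h1
      by_contra h3
      push Not at h3
      have h4 : x ^ 2 - 1 = (x - 1) * ((x - 1) + 2) := by ring
      rw [h4, map_mul] at h2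
      have h5 : w 2 < w (x - 1) := hw.trans_le h3
      rw [Valuation.map_add_eq_of_lt_left _ h5] at h2
      refine absurd h2 (not_lt.2 ?_)
      calc (1 : Γ) ≤ w (x - 1) := h3
        _ = w (x - 1) * 1 := (mul_one _).symm
        _ ≤ w (x - 1) * w (x - 1) := by gcongr
  refine key r x (v_root (pow_ne_zero r two_ne_zero) h).le ?_
  rw [h, sub_self, map_zero]
  exact zero_lt_one

lemma v_comb (hw : w 2 < 1) {ι : Type*} (s : Finset ι) (x : ι → ℂ) (c : ι → ℤ) {r : ℕ}
    (hx : ∀ i ∈ s, x i ^ 2 ^ r = 1) (hc : Odd (∑ i ∈ s, c i)) :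
    w (∑ i ∈ s, x i * (c i : ℂ)) = 1 := by
  have h1 : ∑ i ∈ s, x i * (c i : ℂ) = ((∑ i ∈ s, c i : ℤ) : ℂ) + ∑ i ∈ s, (x i - 1) * (c i : ℂ) := by
    push_cast
    rw [← Finset.sum_add_distrib]
    exact Finset.sum_congr rfl fun i _ => by ring
  have h2 : w (∑ i ∈ s, (x i - 1) * (c i : ℂ)) < 1 := by
    refine Valuation.map_sum_lt _ one_ne_zero fun i hi => ?_
    rw [map_mul]
    calc w (x i - 1) * w (c i : ℂ) ≤ w (x i - 1) * 1 := by gcongr; exact v_int _
      _ < 1 := by rw [mul_one]; exact v_rt2 hw (hx i hi)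
  rw [h1, Valuation.map_add_eq_of_lt_left _ (by rw [v_odd hw hc]; exact h2)]
  exact v_odd hw hc

end val

section gauss

variable {Γ : Type} [LinearOrderedCommGroupWithZero Γ] {w : Valuation ℂ Γ} {q : ℕ} [NeZero q]

lemma v_chi (χ : DirichletCharacter ℂ q) (a : ZMod q) : w (χ a) ≤ 1 := by
  by_cases ha : IsUnit a
  · obtain ⟨u, rfl⟩ := ha
    refine (v_root (M := Nat.card (ZMod q)ˣ) Nat.card_pos.ne' ?_).le
    rw [← map_pow, ← Units.val_pow_eq_pow_val, pow_card_eq_one', Units.val_one, map_one]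
  · rw [MulChar.map_nonunit χ ha, map_zero]
    exact zero_le'

lemma v_add (a : ZMod q) : w (ZMod.stdAddChar (N := q) a) ≤ 1 := by
  refine (v_root (M := q) (NeZero.ne q) ?_).le
  rw [← AddChar.map_nsmul_eq_pow]
  have : (q • a : ZMod q) = 0 := by simp
  rw [this, AddChar.map_zero_eq_one]

lemma v_term (χ : DirichletCharacter ℂ q) (a : ZMod q) :
    w (χ a * ZMod.stdAddChar (N := q) a) ≤ 1 := by
  rw [map_mul]
  exact mul_le_one' (v_chi χ a) (v_add a)

lemma v_gs_le (χ : DirichletCharacter ℂ q) : w (gaussSum χ (ZMod.stdAddChar (N := q))) ≤ 1 :=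
  Valuation.map_sum_le _ fun a _ => v_term χ a

lemma gs_mul {χ : DirichletCharacter ℂ q} (hχ : χ.IsPrimitive) :
    gaussSum χ (ZMod.stdAddChar (N := q)) * (χ⁻¹ (-1) * gaussSum χ⁻¹ (ZMod.stdAddChar (N := q))) =
      (q : ℂ) := by
  rw [← Pool.Agent.K4H53.DP.conj_gauss, Complex.mul_conj, Complex.normSq_eq_norm_sq,
    H385.GaussAux.norm_sq_gaussSum hχ]
  push_cast
  rfl

lemma v_m1 (χ : DirichletCharacter ℂ q) : w (χ (-1)) = 1 := by
  refine v_root (M := 2) two_ne_zero ?_
  rw [← map_pow]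
  simp

/-- odd conductor -/
lemma v_gs_odd (hw : w 2 < 1) {χ : DirichletCharacter ℂ q} (hχ : χ.IsPrimitive) (hq : Odd q) :
    w (gaussSum χ (ZMod.stdAddChar (N := q))) = 1 := by
  have h1 := congrArg w (gs_mul hχ)
  rw [map_mul, map_mul, v_m1, one_mul] at h1
  have h2 : w (q : ℂ) = 1 := by
    have := v_odd (w := w) hw (k := (q : ℤ)) (by exact_mod_cast hq)
    simpa using this
  rw [h2] at h1
  exact le_antisymm (v_gs_le χ) (by
    by_contra h3
    push Not at h3
    have h4 : w (gaussSum χ (ZMod.stdAddChar (N := q))) *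
        w (gaussSum χ⁻¹ (ZMod.stdAddChar (N := q))) < 1 :=
      calc _ ≤ w (gaussSum χ (ZMod.stdAddChar (N := q))) * 1 := by gcongr; exact v_gs_le _
        _ < 1 := by rw [mul_one]; exact h3
    exact absurd h1 h4.ne)

/-- the character changes its sign -/
lemma chi_half {χ : DirichletCharacter ℂ q} (hχ : χ.IsPrimitive) {m : ℕ} (hm : Odd m)
    (hq : q = 4 * m) (a : ZMod q) : χ (a + ((2 * m : ℕ) : ZMod q)) = -χ a := by
  subst hq
  set t : ZMod (4 * m) := ((2 * m : ℕ) : ZMod (4 * m)) with ht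
  have h4 : ((4 * m : ℕ) : ZMod (4 * m)) = 0 := ZMod.natCast_self _
  have htt : t * t = 0 := by
    rw [ht, ← Nat.cast_mul, show 2 * m * (2 * m) = 4 * m * m by ring, Nat.cast_mul, h4, zero_mul]
  have h2t : t + t = 0 := by
    rw [ht, ← Nat.cast_add, show 2 * m + 2 * m = 4 * m by ring, h4]
  have hm0 : 0 < m := hm.pos
  have hu : (1 + t) * (1 + t) = 1 := by linear_combination h2t + htt
  have hodd : ∀ a : ZMod (4 * m), IsUnit a → t * a = t := by
    intro a ha
    obtain ⟨j, hj⟩ : ∃ j, a.val = 2 * j + 1 := by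
      have h1 : Nat.Coprime a.val (4 * m) := (ZMod.isUnit_iff_coprime _ _).1 (by
        rw [ZMod.natCast_zmod_val]; exact ha)
      have h2 : Nat.Coprime a.val 2 := h1.coprime_dvd_right ⟨2 * m, by ring⟩
      exact Nat.coprime_two_right.1 h2
    rw [← ZMod.natCast_zmod_val a, hj, ht, ← Nat.cast_mul,
      show 2 * m * (2 * j + 1) = 4 * m * j + 2 * m by ring, Nat.cast_add, Nat.cast_mul (4 * m), h4,
      zero_mul, zero_add]
  have h1t : χ (1 + t) = -1 := by
    have h1 : χ (1 + t) * χ (1 + t) = 1 := by rw [← map_mul, hu, map_one]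
    rcases mul_self_eq_one_iff.1 h1 with h2 | h2
    swap
    · exact h2
    exfalso
    have hd : 2 * m ∣ 4 * m := ⟨2, by ring⟩
    have hf : χ.FactorsThrough (2 * m) := by
      rw [DirichletCharacter.factorsThrough_iff_ker_unitsMap hd]
      intro u hu'
      rw [MonoidHom.mem_ker] at hu' ⊢
      have h3 : ((ZMod.unitsMap hd u : (ZMod (2 * m))ˣ) : ZMod (2 * m)) = 1 := by
        rw [hu']; rfl
      have h5 : (((u : ZMod (4 * m)).val : ℕ) : ZMod (2 * m)) = ((1 : ℕ) : ZMod (2 * m)) := by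
        rw [Nat.cast_one, ← h3, ZMod.unitsMap_val]
        exact ZMod.natCast_val _
      have h6 : (u : ZMod (4 * m)).val ≡ 1 [MOD 2 * m] := (ZMod.natCast_eq_natCast_iff _ _ _).1 h5
      have h7 := ZMod.val_lt (u : ZMod (4 * m))
      have h8 : (u : ZMod (4 * m)).val = 1 ∨ (u : ZMod (4 * m)).val = 2 * m + 1 := by
        unfold Nat.ModEq at h6
        rw [Nat.mod_eq_of_lt (show 1 < 2 * m by omega)] at h6
        rcases lt_or_ge (u : ZMod (4 * m)).val (2 * m) with h9 | h9
        · rw [Nat.mod_eq_of_lt h9] at h6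
          exact Or.inl h6
        · have h10 : (u : ZMod (4 * m)).val = ((u : ZMod (4 * m)).val - 2 * m) + 2 * m := by omega
          rw [h10, Nat.add_mod_right, Nat.mod_eq_of_lt (by omega)] at h6
          right
          omega
      have h11 : χ (u : ZMod (4 * m)) = 1 := by
        rcases h8 with h8 | h8
        · have : (u : ZMod (4 * m)) = 1 := by
            rw [← ZMod.natCast_zmod_val (u : ZMod (4 * m)), h8, Nat.cast_one]
          rw [this, map_one]
        · have : (u : ZMod (4 * m)) = 1 + t := by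
            rw [← ZMod.natCast_zmod_val (u : ZMod (4 * m)), h8, Nat.cast_add, Nat.cast_one, add_comm]
          rw [this, h2]
      apply Units.ext
      rw [MulChar.coe_toUnitHom, h11]
      rfl
    have h12 : χ.conductor ≤ 2 * m := Nat.sInf_le hf
    have h13 : χ.conductor = 4 * m := hχ
    omega
  by_cases ha : IsUnit a
  · have h1 : a + t = a * (1 + t) := by
      have := hodd a ha
      linear_combination -this
    rw [h1, map_mul, h1t]
    ring
  · have h1 : ¬ IsUnit (a + t) := by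
      intro h2
      apply ha
      have h3 := hodd (a + t) h2
      have h4' : a = (a + t) * (1 + t) := by
        linear_combination -h3 - h2t
      rw [h4']
      exact h2.mul (IsUnit.of_mul_eq_one _ hu)
    rw [MulChar.map_nonunit χ ha, MulChar.map_nonunit χ h1, neg_zero]

lemma psi_half {m : ℕ} (hq : q = 4 * m) :
    ZMod.stdAddChar (N := q) ((2 * m : ℕ) : ZMod q) = -1 := by
  have hq0 : 0 < q := NeZero.pos q
  have h1 : ZMod.stdAddChar (N := q) ((2 * m : ℕ) : ZMod q) *
      ZMod.stdAddChar (N := q) ((2 * m : ℕ) : ZMod q) = 1 := by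
    rw [← AddChar.map_add_eq_mul, ← Nat.cast_add, show 2 * m + 2 * m = q by omega,
      ZMod.natCast_self, AddChar.map_zero_eq_one]
  rcases mul_self_eq_one_iff.1 h1 with h2 | h2
  swap
  · exact h2
  exfalso
  have h3 : ((2 * m : ℕ) : ZMod q) = 0 := by
    apply ZMod.injective_stdAddChar
    rw [h2, AddChar.map_zero_eq_one]
  rw [ZMod.natCast_eq_zero_iff] at h3
  have := Nat.le_of_dvd (by omega) h3
  omega

lemma gs_half {χ : DirichletCharacter ℂ q} (hχ : χ.IsPrimitive) {m : ℕ} (hm : Odd m)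
    (hq : q = 4 * m) : w (gaussSum χ (ZMod.stdAddChar (N := q))) ≤ w 2 := by
  classical
  set F : ZMod q → ℂ := fun a => χ a * ZMod.stdAddChar (N := q) a with hF
  set t : ZMod q := ((2 * m : ℕ) : ZMod q) with ht
  have hm0 : 0 < m := hm.pos
  have hFt : ∀ a, F (a + t) = F a := by
    intro a
    rw [hF]
    show χ (a + t) * ZMod.stdAddChar (N := q) (a + t) = χ a * ZMod.stdAddChar (N := q) a
    rw [chi_half hχ hm hq, AddChar.map_add_eq_mul, psi_half hq]
    ring
  have hp : ∀ a : ZMod q, (a + t).val < 2 * m ↔ ¬ a.val < 2 * m := by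
    intro a
    have h1 := ZMod.val_lt a
    have h2 : t.val = 2 * m := by
      rw [ht, ZMod.val_natCast_of_lt (by omega)]
    rw [ZMod.val_add, h2]
    rcases lt_or_ge a.val (2 * m) with h3 | h3
    · rw [Nat.mod_eq_of_lt (by omega)]
      omega
    · have h4 : a.val + 2 * m = (a.val - 2 * m) + q := by omega
      rw [h4, Nat.add_mod_right, Nat.mod_eq_of_lt (by omega)]
      omega
  have h1 : gaussSum χ (ZMod.stdAddChar (N := q)) =
      2 * ∑ a ∈ univ.filter (fun a : ZMod q => a.val < 2 * m), F a := by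
    have h2 : gaussSum χ (ZMod.stdAddChar (N := q)) = ∑ a, F a := rfl
    rw [h2, ← Finset.sum_filter_add_sum_filter_not univ (fun a : ZMod q => a.val < 2 * m) F,
      two_mul (∑ a ∈ univ.filter (fun a : ZMod q => a.val < 2 * m), F a)]
    congr 1
    rw [Finset.sum_filter, Finset.sum_filter]
    refine ((Equiv.sum_comp (Equiv.addRight t)
      (fun a : ZMod q => if ¬ a.val < 2 * m then F a else 0)).symm).trans ?_
    refine Finset.sum_congr rfl fun a _ => ?_
    rw [Equiv.coe_addRight, hFt]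
    by_cases h3 : a.val < 2 * m
    · rw [if_pos h3, if_pos]
      rw [hp]
      exact not_not.2 h3
    · rw [if_neg h3, if_neg]
      rw [hp]
      exact fun h => h h3
  rw [h1, map_mul]
  have h4 : w (∑ a ∈ univ.filter (fun a : ZMod q => a.val < 2 * m), F a) ≤ 1 :=
    Valuation.map_sum_le _ fun a _ => v_term χ a
  calc w 2 * w (∑ a ∈ univ.filter (fun a : ZMod q => a.val < 2 * m), F a) ≤ w 2 * 1 := by
        gcongr
    _ = w 2 := mul_one _

/-- conductor `4 m`, `m` odd -/
lemma v_gs_four (hw : w 2 < 1) (h20 : w 2 ≠ 0) {χ : DirichletCharacter ℂ q} (hχ : χ.IsPrimitive)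
    (hχ' : χ⁻¹.IsPrimitive) {m : ℕ} (hm : Odd m)
    (hq : q = 4 * m) : w (gaussSum χ (ZMod.stdAddChar (N := q))) = w 2 := by
  have h1 := congrArg w (gs_mul hχ)
  rw [map_mul, map_mul, v_m1, one_mul] at h1
  have h2 : w (q : ℂ) = w 2 * w 2 := by
    have := v_odd (w := w) hw (k := (m : ℤ)) (by exact_mod_cast hm)
    have h3 : (q : ℂ) = 2 * 2 * ((m : ℤ) : ℂ) := by rw [hq]; push_cast; ring
    rw [h3, map_mul, map_mul, this, mul_one]
  rw [h2] at h1
  have g1 := gs_half (w := w) hχ hm hq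
  have g2 := gs_half (w := w) hχ' hm hq
  refine le_antisymm g1 ?_
  by_contra h3
  push Not at h3
  have h20' : 0 < w 2 := zero_lt_iff.2 h20
  have h4 : w (gaussSum χ (ZMod.stdAddChar (N := q))) *
      w (gaussSum χ⁻¹ (ZMod.stdAddChar (N := q))) < w 2 * w 2 :=
    calc _ ≤ w (gaussSum χ (ZMod.stdAddChar (N := q))) * w 2 := by gcongr
      _ < w 2 * w 2 := by gcongr
  exact absurd h1 h4.ne

end gauss

end Pool.Agent.K4H53.AP
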