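import Pool.Agent.K4H53.AP.Lf
import Pool.Agent.K4H53.CX.Fin

/-!
# The points over the field of the representation
-/

set_option autoImplicit false
set_option linter.unusedSectionVars false

open NumberField NumberField.InfinitePlace IsDedekindDomain WeierstrassCurve MeasureTheory
open UpperHalfPlane MatrixGroups CongruenceSubgroup

open scoped Classical

namespace Pool.Agent.K4H53.AP

open Pool.Agent.K4H53.BSX.D
open Pool.Agent.K4H53.CX (PQ aW AK cond_iff pp)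

lemma pts_base (W : WeierstrassCurve ℤ) (K : Type) [Field K] [Algebra ℚ K] :
    (W.map (Int.castRingHom ℚ)).map (algebraMap ℚ K) = W.map (Int.castRingHom K) := by
  rw [WeierstrassCurve.map_map]
  congr 1
  exact RingHom.ext_int _ _

/-- the finiteness of `E(K)` -/
lemma fin_of_rank {W : WeierstrassCurve ℤ} (hW : W.Δ ≠ 0) {K : Type} [Field K] [NumberField K]
    (h : rank K W = 0) : Finite (Pts W K) := by
  unfold Pts
  rw [pts_base]
  exact (Pool.Agent.R425.G.rank_iff W hW).1 h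

lemma fin_map {W : WeierstrassCurve ℤ} {K L : Type} [Field K] [NumberField K] [Field L] [NumberField L]
    (i : K →ₐ[ℚ] L) (h : Finite (Pts W L)) : Finite (Pts W K) :=
  haveI : Finite ((W.map (Int.castRingHom ℚ)).toAffine.baseChange L).Point := h
  Finite.of_injective (Affine.Point.map (W' := (W.map (Int.castRingHom ℚ)).toAffine) i)
    (Affine.Point.map_injective (W' := (W.map (Int.castRingHom ℚ)).toAffine) i)

section

variable {H : Type} [Field H] [NumberField H] [IsGalois ℚ H] {κ : Type} [Fintype κ] [DecidableEq κ]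
variable {n : ℕ} [NeZero n] {ζ : H}

/-- the field of the representation is in the cyclotomic field -/
lemma field_le (c : (H ≃ₐ[ℚ] H) →* (ZMod n)ˣ)
    (hcζ : ∀ σ : H ≃ₐ[ℚ] H, σ ζ = ζ → c σ = 1)
    (ρ : (H ≃ₐ[ℚ] H) →* GL κ ℂ) (hρ : ∀ σ, c σ = 1 → ρ σ = 1) :
    IntermediateField.fixedField ρ.ker ≤ IntermediateField.adjoin ℚ {ζ} := by
  rw [← IsGalois.fixedField_fixingSubgroup (IntermediateField.adjoin ℚ {ζ})]
  refine IntermediateField.fixedField_antitone ?_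
  intro σ hσ
  rw [IntermediateField.mem_fixingSubgroup_iff] at hσ
  rw [MonoidHom.mem_ker]
  exact hρ σ (hcζ σ (hσ ζ (IntermediateField.mem_adjoin_simple_self ℚ ζ)))

/-- the degree is a power of two -/
lemma field_deg (ρ : (H ≃ₐ[ℚ] H) →* GL κ ℂ) (k : ℕ) (hk : ∀ σ, ρ σ ^ 2 ^ k = 1) :
    ∃ j, Module.finrank ℚ (IntermediateField.fixedField ρ.ker) = 2 ^ j := by
  have h1 : Module.finrank ℚ (IntermediateField.fixedField ρ.ker) = ρ.ker.index := by
    rw [IntermediateField.finrank_eq_fixingSubgroup_index, IntermediateField.fixingSubgroup_fixedField]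
  have h2 : IsPGroup 2 ρ.range := by
    rintro ⟨x, σ, rfl⟩
    exact ⟨k, Subtype.ext (hk σ)⟩
  have : Finite ρ.range := Finite.of_surjective ρ.rangeRestrict ρ.rangeRestrict_surjective
  have : Fact (Nat.Prime 2) := ⟨Nat.prime_two⟩
  obtain ⟨j, hj⟩ := IsPGroup.iff_card.1 h2
  refine ⟨j, ?_⟩
  rw [h1, Subgroup.index_ker, hj]

/-- a character trivial on the Galois group of `M / K` is trivial on the kernel of `R` -/
lemma yy_triv (hζ : IsPrimitiveRoot ζ n) {c : (H ≃ₐ[ℚ] H) →* (ZMod n)ˣ}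
    (hcs : Function.Surjective c) (hcζ : ∀ σ : H ≃ₐ[ℚ] H, σ ζ = ζ ^ ((c σ : ZMod n).val))
    {ρ : (H ≃ₐ[ℚ] H) →* GL κ ℂ} {R : (ZMod n)ˣ →* GL κ ℂ} (hR : ∀ σ, R (c σ) = ρ σ)
    {M : IntermediateField ℚ H} (hζM : ζ ∈ M) [IsCyclotomicExtension {n} ℚ M]
    (hle : IntermediateField.fixedField ρ.ker ≤ M)
    {χ : DirichletCharacter ℂ n}
    (hχ : χ ∈ H300.HW.YY n M (IntermediateField.restrict hle))
    (u : (ZMod n)ˣ) (hu : R u = 1) : χ (u : ZMod n) = 1 := by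
  obtain ⟨σ, rfl⟩ := hcs u
  have hσ : σ ∈ ρ.ker := by rw [MonoidHom.mem_ker, ← hR, hu]
  have hnM : IsGalois ℚ M := IsCyclotomicExtension.isGalois {n} ℚ M
  set τ : M ≃ₐ[ℚ] M := σ.restrictNormal M with hτ
  have h1 : ∀ x : M, ((τ x : M) : H) = σ (x : H) := fun x => AlgEquiv.restrictNormal_commutes σ M x
  have hmem : τ ∈ (IntermediateField.restrict hle).fixingSubgroup := by
    refine (IntermediateField.mem_fixingSubgroup_iff _ _).2 fun x hx => ?_
    rw [IntermediateField.mem_restrict] at hx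
    apply Subtype.ext
    exact (h1 x).trans (hx ⟨σ, hσ⟩)
  have h2 := (H300.HW.mem_YY n M _ χ).1 hχ τ hmem
  have h3 : IsCyclotomicExtension.Rat.galEquivZMod n M τ = c σ := by
    set z : M := ⟨ζ, hζM⟩ with hz
    have hzp : IsPrimitiveRoot z n := IsPrimitiveRoot.of_map_of_injective
      (f := algebraMap M H) (by exact hζ) (algebraMap M H).injective
    have h4 := IsCyclotomicExtension.Rat.galEquivZMod_apply_of_pow_eq n M τ hzp.pow_eq_one
    have h5 : (τ z : M) = z ^ ((c σ : ZMod n).val) := by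
      apply Subtype.ext
      exact (h1 z).trans (hcζ σ)
    have h6 := hzp.pow_inj (ZMod.val_lt _) (ZMod.val_lt _) (h4.symm.trans h5)
    exact Units.ext (ZMod.val_injective n h6)
  rw [h3] at h2
  exact h2

variable {N : ℕ} [NeZero N]

/-- **the points over the field of the representation** -/
theorem fin_K (hζ : IsPrimitiveRoot ζ n) {c : (H ≃ₐ[ℚ] H) →* (ZMod n)ˣ}
    (hcs : Function.Surjective c) (hcζ : ∀ σ : H ≃ₐ[ℚ] H, σ ζ = ζ ^ ((c σ : ZMod n).val))
    {ρ : (H ≃ₐ[ℚ] H) →* GL κ ℂ} {R : (ZMod n)ˣ →* GL κ ℂ} (hR : ∀ σ, R (c σ) = ρ σ)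
    (k : ℕ) (hk : ∀ σ, ρ σ ^ 2 ^ k = 1)
    (W : WeierstrassCurve ℤ) (hΔ : W.Δ < 0)
    (hmin : ∀ p : HeightOneSpectrum (𝓞 ℚ), MinimalAt W p)
    (f : CuspForm (Gamma0 N : Subgroup (GL (Fin 2) ℝ)) 2) (hf : IsNewform W N f)
    (hN2 : ∀ p : ℕ, p.Prime → p ∣ N → (p ^ 2 ∣ N ↔ (p : ℤ) ∣ W.c₄))
    (Λ : PeriodPair) (hg₂ : Λ.g₂ = (W.c₄ : ℂ) / 12) (hg₃ : Λ.g₃ = (W.c₆ : ℂ) / 216)
    (hman : ∃ c : ℤ, Odd c ∧ ∀ γ ∈ Gamma0 N, ∀ z : ℍ,
      (c : ℂ) * (prim f ((γ • z : ℍ) : ℂ) - prim f (z : ℂ)) ∈ Λ.lattice)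
    (q : ℕ) (hq : q.Prime) (hqΔ : ¬ (q : ℤ) ∣ 2 * W.Δ) (hqo : Odd ((q : ℤ) - pts W (ZMod q)))
    (htam : Odd (Tam ℚ W)) (hrk : rank ℚ W = 0) (hsha : Sha2 ℚ W = {0})
    (hPQ : ∀ χ : DirichletCharacter ℂ n, (∀ u : (ZMod n)ˣ, R u = 1 → χ (u : ZMod n) = 1) →
      PQ (aW W) N χ.conductor) :
    Finite (Pts W (IntermediateField.fixedField ρ.ker)) := by
  set M := IntermediateField.adjoin ℚ {ζ} with hM
  have : IsCyclotomicExtension {n} ℚ M := hζ.intermediateField_adjoin_isCyclotomicExtension ℚ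
  have hρ : ∀ σ, c σ = 1 → ρ σ = 1 := fun σ h => by rw [← hR, h, map_one]
  have hc1 : ∀ σ : H ≃ₐ[ℚ] H, σ ζ = ζ → c σ = 1 := by
    intro σ hσ
    have h1 := hcζ σ
    rw [hσ] at h1
    have h2 : ζ ^ ((1 : (ZMod n)ˣ) : ZMod n).val = ζ ^ ((c σ : ZMod n).val) := by
      rw [← h1]
      rcases Nat.lt_or_ge 1 n with h3 | h3
      · have : Fact (1 < n) := ⟨h3⟩
        rw [Units.val_one, ZMod.val_one, pow_one]
      · obtain rfl : n = 1 := by have := NeZero.pos n; omega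
        rw [IsPrimitiveRoot.one_right_iff.1 hζ, one_pow]
    exact (Units.ext (ZMod.val_injective n (hζ.pow_inj (ZMod.val_lt _) (ZMod.val_lt _) h2))).symm
  have hle := field_le c hc1 ρ hρ
  set K := IntermediateField.restrict hle with hK
  obtain ⟨j, hj⟩ := field_deg ρ k hk
  have hjK : Module.finrank ℚ K = 2 ^ j := by
    rw [← hj]
    exact (IntermediateField.restrictAlgEquiv hle).toLinearEquiv.finrank_eq.symm
  obtain ⟨ae, mo, hmo, hme⟩ := Nat.exists_eq_two_pow_mul_odd (NeZero.ne n)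
  have hAK : AK W K := by
    refine (cond_iff hf.level ae mo n hmo hme M K j hjK (pp.dg n M K j hjK)).1 fun χ => ?_
    exact hPQ χ.1 (yy_triv hζ hcs hcζ hR (IntermediateField.mem_adjoin_simple_self ℚ ζ) hle χ.2)
  obtain ⟨-, -, -, hup, -⟩ := Pool.Agent.K4H53.CX.main pp W hΔ.ne hmin f hf hN2 Λ hg₂ hg₃ hman q hq
    hqΔ hqo n M K j hjK (fun l hl hld hlΔ => by
      by_cases hl2 : l = 2
      · subst hl2
        exact absurd hlΔ (by exact_mod_cast (hAK.2 (by exact_mod_cast hld)).1)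
      · exact absurd hlΔ (hAK.1 l hl hld hl2).1)
    ((0 < W.Δ → IsTotallyReal K) ∧ AK W K) Iff.rfl
  have hfin : Finite (Pts W K) :=
    fin_of_rank hΔ.ne (hup htam ⟨⟨hrk, hsha⟩, fun h => absurd h (not_lt.2 hΔ.le), hAK⟩).1
  exact fin_map (IntermediateField.restrictAlgEquiv hle).toAlgHom hfin

end

end Pool.Agent.K4H53.AP
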