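import Pool.Agent.K4H53.AP.Eig
import Pool.Agent.K4H53.DP.Rel

/-!
# The `L`-function of `V_f ⊗ V` for a representation `V` with abelian image
-/

set_option autoImplicit false
set_option linter.unusedSectionVars false

open NumberField IsDedekindDomain WeierstrassCurve CongruenceSubgroup MatrixGroups

open scoped Classical

namespace Pool.Agent.K4H53.AP

open Pool.Agent.Y702.G (IsForm)
open Pool.Agent.Y18.BSD (co bv)

section

variable {H : Type} [Field H] [NumberField H] {κ : Type} [Fintype κ] [DecidableEq κ]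
variable {W : WeierstrassCurve ℤ} {N : ℕ} [NeZero N]
  {f : CuspForm (Gamma0 N : Subgroup (GL (Fin 2) ℝ)) 2}

/-- the Euler factor is the product of the factors of the characters -/
lemma euler_eq (hf : IsForm W N f) {ρ : (H ≃ₐ[ℚ] H) →* GL κ ℂ} {v : HeightOneSpectrum (𝓞 H)}
    {p : ℕ} (hp : p.Prime) {b : Module.Basis κ ℂ (κ → ℂ)} {l : κ → ℂ}
    (hl : ∀ i, Eig (b i) (frobM ρ v) (l i)) (s : ℂ) :
    euler ρ W v s p = ∏ i, (1 - co f p * l i * (p : ℂ) ^ (-s) +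
      (if p ∣ N then (0 : ℂ) else (p : ℂ)) * l i ^ 2 * (p : ℂ) ^ (-2 * s))⁻¹ := by
  unfold euler
  have hp0 : (p : ℂ) ≠ 0 := by exact_mod_cast hp.ne_zero
  have e1 : (p : ℂ) ^ (1 - 2 * s) = (p : ℂ) * (p : ℂ) ^ (-2 * s) := by
    rw [show (1 - 2 * s : ℂ) = 1 + (-2 * s) by ring, Complex.cpow_add _ _ hp0, Complex.cpow_one]
  have hco : co f p = (((p : ℤ) - Pool.Agent.K4H53.BSX.D.pts W (ZMod p) : ℤ) : ℂ) := by
    have := hf.coef p hp
    rw [this]
    push_cast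
    rfl
  rw [det_eig b fun i => ((Eig.one (b i)).sub ((hl i).smul _)).add (((hl i).pow 2).smul _),
    Finset.prod_inv_distrib]
  congr 1
  refine Finset.prod_congr rfl fun i _ => ?_
  rw [← hco]
  by_cases h : p ∣ N
  · rw [if_pos h, if_pos ((hf.level p hp).1 h)]
    ring
  · rw [if_neg h, if_neg (fun h' => h ((hf.level p hp).2 h')), e1]
    ring

/-- the `L`-function -/
theorem lfun (hA : S_AVG) (hf : IsForm W N f) {n : ℕ} [NeZero n]
    {c : (H ≃ₐ[ℚ] H) →* (ZMod n)ˣ}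
    (hc : ∀ (v : HeightOneSpectrum (𝓞 H)) (p : ℕ), p.Prime → (p : 𝓞 H) ∈ v.asIdeal →
      (∀ σ ∈ FrobSet v, fr n p (c σ)) ∧
      ∃ k : ℕ, 0 < k ∧ ∀ u : (ZMod n)ˣ, fr n p u → Nat.card {σ // σ ∈ FrobSet v ∧ c σ = u} = k)
    {R : (ZMod n)ˣ →* GL κ ℂ} {ρ : (H ≃ₐ[ℚ] H) →* GL κ ℂ} (hR : ∀ σ, R (c σ) = ρ σ)
    {b : Module.Basis κ ℂ (κ → ℂ)} {χ : κ → MulChar (ZMod n)ˣ ℂ}
    (hb : ∀ (u : (ZMod n)ˣ) i, Eig (b i) (cM (R u)) (χ i u))
    (hco : ∀ i, Nat.Coprime (dch (χ i)).conductor N) :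
    ∃ G : κ → ℂ → ℂ, (∀ i, Differentiable ℂ (G i)) ∧
      (∀ V : Nat.Primes → HeightOneSpectrum (𝓞 H),
        (∀ p : Nat.Primes, ((p : ℕ) : 𝓞 H) ∈ (V p).asIdeal) → ∀ s : ℂ, 3 / 2 < s.re →
        HasProd (fun p : Nat.Primes => euler ρ W (V p) s p) (∏ i, G i s)) ∧
      ∀ i, gaussSum (dch (χ i)).primitiveCharacter⁻¹ (ZMod.stdAddChar (N := (dch (χ i)).conductor)) *
        G i 1 = ∑ u : (ZMod (dch (χ i)).conductor)ˣ,
          (dch (χ i)).primitiveCharacter⁻¹ (u : ZMod (dch (χ i)).conductor) *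
            bv f (((u : ZMod (dch (χ i)).conductor).val : ℚ) / (dch (χ i)).conductor) := by
  have hne : ∀ i, NeZero (dch (χ i)).conductor := fun i => ⟨fun h => by
    have := DirichletCharacter.conductor_dvd_level (dch (χ i))
    rw [h] at this
    exact NeZero.ne n (zero_dvd_iff.1 this)⟩
  choose G h1 h2 h3 using fun i => Pool.Agent.Y702.G.twist hf (dch (χ i)).conductor (hco i)
    (dch (χ i)).primitiveCharacter (dch (χ i)).primitiveCharacter_isPrimitive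
  refine ⟨G, h1, fun V hV s hs => ?_, h3⟩
  have h4 : HasProd (fun p : Nat.Primes => ∏ i, (1 - co f p *
      (dch (χ i)).primitiveCharacter (((p : ℕ)) : ZMod (dch (χ i)).conductor) *
        ((p : ℕ) : ℂ) ^ (-s) + (if (p : ℕ) ∣ N then (0 : ℂ) else (p : ℕ)) *
        (dch (χ i)).primitiveCharacter (((p : ℕ)) : ZMod (dch (χ i)).conductor) ^ 2 *
          ((p : ℕ) : ℂ) ^ (-2 * s))⁻¹) (∏ i, G i s) :=
    hasProd_prod fun i _ => h2 i s hs
  refine h4.congr_fun fun p => ?_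
  exact euler_eq hf p.2 (fun i => frob_eig hA hR hb p.2 (hc (V p) p p.2 (hV p)).1
    (hc (V p) p p.2 (hV p)).2 i) s

end

end Pool.Agent.K4H53.AP
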