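import Pool.Agent.K4H53.AP.Vl
import Pool.Agent.K4H53.AP.Kf

/-!
# The main theorem for representations with abelian image
-/

set_option autoImplicit false
set_option linter.unusedSectionVars false

open NumberField IsDedekindDomain WeierstrassCurve MeasureTheory
open UpperHalfPlane MatrixGroups CongruenceSubgroup

open scoped Classical

namespace Pool.Agent.K4H53.AP

open Pool.Agent.K4H53.BSX.D
open Pool.Agent.K4H53.CX (PQ aW)

section trace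

variable {κ : Type} [Fintype κ] [DecidableEq κ]

lemma trace_eig (b : Module.Basis κ ℂ (κ → ℂ)) {A : Matrix κ κ ℂ}
    {l : κ → ℂ} (h : ∀ i, Eig (b i) A (l i)) : A.trace = ∑ i, l i := by
  have h1 : LinearMap.toMatrix b b (Matrix.toLin' A) = Matrix.diagonal l := by
    ext i j
    rw [LinearMap.toMatrix_apply, Matrix.toLin'_apply, h j, map_smul]
    simp only [Module.Basis.repr_self, Finsupp.smul_apply, Finsupp.single_apply, smul_eq_mul,
      Matrix.diagonal_apply]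
    by_cases hij : i = j
    · subst hij
      simp
    · rw [if_neg (fun h => hij h.symm), if_neg hij, mul_zero]
  rw [← Matrix.trace_toLin'_eq, LinearMap.trace_eq_matrix_trace ℂ b, h1, Matrix.trace_diagonal]

end trace

section

variable {H : Type} [Field H] [NumberField H] [IsGalois ℚ H] {κ : Type} [Fintype κ] [DecidableEq κ]

/-- unramified at `p` -/
def Unr (ρ : (H ≃ₐ[ℚ] H) →* GL κ ℂ) (p : ℕ) : Prop :=
  ∀ v : HeightOneSpectrum (𝓞 H), (p : 𝓞 H) ∈ v.asIdeal →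
    ∀ σ ∈ FrobSet v, ∀ σ' ∈ FrobSet v, ρ σ = ρ σ'

lemma exists_place {p : ℕ} (hp : p.Prime) : ∃ v : HeightOneSpectrum (𝓞 H), (p : 𝓞 H) ∈ v.asIdeal := by
  have h1 : ¬ IsUnit (p : 𝓞 H) := by
    intro h
    have h3 : IsUnit (algebraMap ℤ (𝓞 H) (p : ℤ)) := by
      rw [map_natCast]
      exact h
    have h4 : IsUnit (p : ℤ) := isUnit_of_map_unit (algebraMap ℤ (𝓞 H)) _ h3
    exact (Nat.prime_iff_prime_int.1 hp).not_isUnit h4
  obtain ⟨M, hM, hpM⟩ := exists_max_ideal_of_mem_nonunits (mem_nonunits_iff.2 h1)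
  refine ⟨⟨M, hM.isPrime, ?_⟩, hpM⟩
  rintro rfl
  rw [Ideal.mem_bot] at hpM
  exact hp.ne_zero (by exact_mod_cast hpM)

variable {n : ℕ} [NeZero n]

/-- an unramified representation is trivial on the inertia classes -/
lemma unr_triv {c : (H ≃ₐ[ℚ] H) →* (ZMod n)ˣ}
    (hc : ∀ (v : HeightOneSpectrum (𝓞 H)) (p : ℕ), p.Prime → (p : 𝓞 H) ∈ v.asIdeal →
      (∀ σ ∈ FrobSet v, fr n p (c σ)) ∧
      ∃ k : ℕ, 0 < k ∧ ∀ u : (ZMod n)ˣ, fr n p u → Nat.card {σ // σ ∈ FrobSet v ∧ c σ = u} = k)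
    (hA : S_AVG) {ρ : (H ≃ₐ[ℚ] H) →* GL κ ℂ} {R : (ZMod n)ˣ →* GL κ ℂ} (hR : ∀ σ, R (c σ) = ρ σ)
    {p : ℕ} (hp : p.Prime) (hu : Unr ρ p) (u : (ZMod n)ˣ)
    (h1 : (((u : ZMod n).val : ℕ) : ZMod (ordCompl[p] n)) = 1) : R u = 1 := by
  obtain ⟨v, hv⟩ := exists_place (H := H) hp
  obtain ⟨-, k, hk, h2⟩ := hc v p hp hv
  obtain ⟨h3, -⟩ := hA n (1 : DirichletCharacter ℂ n) p hp
  obtain ⟨u₀, hu₀⟩ := Finset.card_pos.1 h3
  have hu₀' : fr n p u₀ := (Finset.mem_filter.1 hu₀).2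
  have hd : ordCompl[p] n ∣ n := Nat.ordCompl_dvd n p
  have hu1 : fr n p (u * u₀) := by
    unfold fr at *
    rw [Units.val_mul, ZMod.val_mul]
    have : ((((u : ZMod n).val * (u₀ : ZMod n).val % n : ℕ)) : ZMod (ordCompl[p] n)) =
        (((u : ZMod n).val * (u₀ : ZMod n).val : ℕ) : ZMod (ordCompl[p] n)) := by
      rw [ZMod.natCast_eq_natCast_iff]
      exact (Nat.mod_modEq _ _).of_dvd hd
    rw [this, Nat.cast_mul, h1, one_mul, hu₀']
  have ex : ∀ u' : (ZMod n)ˣ, fr n p u' → ∃ σ ∈ FrobSet v, c σ = u' := by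
    intro u' hu'
    have h4 := h2 u' hu'
    have h5 : 0 < Nat.card {σ // σ ∈ FrobSet v ∧ c σ = u'} := by rw [h4]; exact hk
    obtain ⟨⟨σ, hσ⟩⟩ := (Nat.card_pos_iff.1 h5).1
    exact ⟨σ, hσ⟩
  obtain ⟨σ, hσ, hσu⟩ := ex _ hu₀'
  obtain ⟨σ', hσ', hσu'⟩ := ex _ hu1
  have h6 := hu v hv σ' hσ' σ hσ
  rw [← hR, ← hR, hσu, hσu', map_mul] at h6
  exact mul_eq_right.1 h6

variable {W : WeierstrassCurve ℤ} {N : ℕ} [NeZero N]

/-- the conditions on the conductors -/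
lemma pq_of {m : ℕ} (hn : n = 4 * m) (hm : Odd m)
    {f : CuspForm (Gamma0 N : Subgroup (GL (Fin 2) ℝ)) 2} (hf : IsNewform W N f)
    {c : (H ≃ₐ[ℚ] H) →* (ZMod n)ˣ}
    (hc : ∀ (v : HeightOneSpectrum (𝓞 H)) (p : ℕ), p.Prime → (p : 𝓞 H) ∈ v.asIdeal →
      (∀ σ ∈ FrobSet v, fr n p (c σ)) ∧
      ∃ k : ℕ, 0 < k ∧ ∀ u : (ZMod n)ˣ, fr n p u → Nat.card {σ // σ ∈ FrobSet v ∧ c σ = u} = k)
    (hA : S_AVG) {ρ : (H ≃ₐ[ℚ] H) →* GL κ ℂ} {R : (ZMod n)ˣ →* GL κ ℂ} (hR : ∀ σ, R (c σ) = ρ σ)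
    (hram : ∀ p : ℕ, p.Prime → ¬ Unr ρ p → ¬ (p : ℤ) ∣ W.Δ ∧
      (p ≠ 2 → Odd ((p : ℤ) - pts W (ZMod p))) ∧ (p = 2 → Even ((p : ℤ) - pts W (ZMod p))))
    (χ : DirichletCharacter ℂ n) (hχ : ∀ u : (ZMod n)ˣ, R u = 1 → χ (u : ZMod n) = 1) :
    PQ (aW W) N χ.conductor ∧ ∀ p : ℕ, p.Prime → Unr ρ p → ¬ p ∣ χ.conductor := by
  have key : ∀ p : ℕ, p.Prime → Unr ρ p → ¬ p ∣ χ.conductor := fun p hp hu =>
    not_dvd_cond hp fun u hu' => hχ u (unr_triv hc hA hR hp hu u hu')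
  refine ⟨⟨fun l hl hlc hl2 => ?_, fun h2 => ?_⟩, key⟩
  · obtain ⟨h1, h3, -⟩ := hram l hl fun hu => key l hl hu hlc
    exact ⟨fun h => h1 ((hf.level l hl).1 h), h3 hl2⟩
  · obtain ⟨h1, -, h3⟩ := hram 2 Nat.prime_two fun hu => key 2 Nat.prime_two hu h2
    refine ⟨fun h => h1 ((hf.level 2 Nat.prime_two).1 h), h3 rfl, fun h8 => ?_⟩
    have h4 : 8 ∣ 4 * m := by
      rw [← hn]
      exact h8.trans (DirichletCharacter.conductor_dvd_level χ)
    obtain ⟨a, ha⟩ := h4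
    obtain ⟨j, hj⟩ := hm
    omega

/-- **Main theorem** -/
theorem main (hRED : S_RED) (hA : S_AVG) (hT : S_TRACE) {m : ℕ} (hn : n = 4 * m) (hm : Odd m)
    {ζ : H} (hζ : IsPrimitiveRoot ζ n)
    (ρ : (H ≃ₐ[ℚ] H) →* GL κ ℂ) (hρ : ∀ σ : H ≃ₐ[ℚ] H, σ ζ = ζ → ρ σ = 1)
    (k : ℕ) (hk : ∀ σ, ρ σ ^ 2 ^ k = 1)
    (hram : ∀ p : ℕ, p.Prime → ¬ Unr ρ p → ¬ (p : ℤ) ∣ W.Δ ∧
      (p ≠ 2 → Odd ((p : ℤ) - pts W (ZMod p))) ∧ (p = 2 → Even ((p : ℤ) - pts W (ZMod p))))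
    (hΔ : W.Δ < 0)
    (hmin : ∀ p : HeightOneSpectrum (𝓞 ℚ), MinimalAt W p)
    (f : CuspForm (Gamma0 N : Subgroup (GL (Fin 2) ℝ)) 2) (hf : IsNewform W N f)
    (hN2 : ∀ p : ℕ, p.Prime → p ∣ N → (p ^ 2 ∣ N ↔ (p : ℤ) ∣ W.c₄))
    (Λ : PeriodPair) (hg₂ : Λ.g₂ = (W.c₄ : ℂ) / 12) (hg₃ : Λ.g₃ = (W.c₆ : ℂ) / 216)
    (hman : ∃ c : ℤ, Odd c ∧ ∀ γ ∈ Gamma0 N, ∀ z : ℍ,
      (c : ℂ) * (prim f ((γ • z : ℍ) : ℂ) - prim f (z : ℂ)) ∈ Λ.lattice)
    (q : ℕ) (hq : q.Prime) (hqΔ : ¬ (q : ℤ) ∣ 2 * W.Δ) (hqo : Odd ((q : ℤ) - pts W (ZMod q)))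
    (htam : Odd (Tam ℚ W)) (hrk : rank ℚ W = 0) (hsha : Sha2 ℚ W = {0})
    (hodd : ∃ a b : ℤ, Odd a ∧ Odd b ∧ (b : ℂ) * Pool.Agent.Y18.BSD.bv f 0 = a * (realPeriod W : ℂ)) :
    0 < realPeriod W ∧ 0 < complexPeriod W ∧
    (∀ φ : (κ → ℂ) →ₗ[ℂ] (TensorProduct ℤ ℂ (Pts W H)), IsHom ρ (act W) φ → φ = 0) ∧
    ∃ L : ℂ → ℂ, Differentiable ℂ L ∧
      (∀ V : Nat.Primes → HeightOneSpectrum (𝓞 H),
        (∀ p : Nat.Primes, ((p : ℕ) : 𝓞 H) ∈ (V p).asIdeal) → ∀ s : ℂ, 3 / 2 < s.re →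
        HasProd (fun p : Nat.Primes => euler ρ W (V p) s p) (L s)) ∧
      ∃ a b r : ℕ, a + b = Fintype.card κ ∧ r ≤ Fintype.card κ ∧ (Unr ρ 2 → r = 0) ∧
        (∀ σ : H ≃ₐ[ℚ] H, σ ζ = ζ⁻¹ → (ρ σ : Matrix κ κ ℂ).trace = (a : ℂ) - b) ∧
        ∀ (Γ : Type) [LinearOrderedCommGroupWithZero Γ] (w : Valuation ℂ Γ), w 2 < 1 →
          w (2 ^ r * L 1) = w ((realPeriod W : ℂ) ^ a *
            (Complex.I * ((complexPeriod W : ℂ) / (realPeriod W : ℂ))) ^ b) := by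
  obtain ⟨c, hcs, hcζ, hc⟩ := hRED n H ζ hζ
  have hone : ∀ σ : H ≃ₐ[ℚ] H, c σ = 1 → σ ζ = ζ := by
    intro σ h
    rw [hcζ σ, h]
    rcases Nat.lt_or_ge 1 n with h3 | h3
    · have : Fact (1 < n) := ⟨h3⟩
      rw [Units.val_one, ZMod.val_one, pow_one]
    · obtain rfl : n = 1 := by have := NeZero.pos n; omega
      rw [IsPrimitiveRoot.one_right_iff.1 hζ, one_pow]
  obtain ⟨R, hR⟩ := exists_R hcs (ρ := ρ) fun σ h => hρ σ (hone σ h)
  have hfI := Pool.Agent.K4H53.BSX.D.isForm hf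
  have hpq := pq_of hn hm hf hc hA hR hram
  -- the algebraic side
  have hfin := fin_K hζ hcs hcζ hR k hk W hΔ hmin f hf hN2 Λ hg₂ hg₃ hman q hq hqΔ hqo htam hrk hsha
    fun χ hχ => (hpq χ hχ).1
  have halg := hT W H ρ.ker hfin κ ρ fun σ hσ => hσ
  -- the periods
  obtain ⟨s, t, ht, hst, hrp, hcp, hmain⟩ := Pool.Agent.K4H53.DP.main_sum hΔ.ne hfI Λ hg₂ hg₃ hman q hq
    hqΔ hqo
  have hrp0 : (realPeriod W : ℂ) ≠ 0 := by
    have : realPeriod W ≠ 0 := ne_of_gt hrp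
    exact_mod_cast this
  have hs : Odd s := by
    obtain ⟨a, b, ha, hb, hab⟩ := hodd
    have hst' : (t : ℂ) * Pool.Agent.Y18.BSD.bv f 0 = s * (realPeriod W : ℂ) := hst
    have h1 : ((b * s : ℤ) : ℂ) * (realPeriod W : ℂ) = ((a * t : ℤ) : ℂ) * (realPeriod W : ℂ) := by
      push_cast
      linear_combination (t : ℂ) * hab - (b : ℂ) * hst'
    have h2 := mul_right_cancel₀ hrp0 h1
    have h3 : b * s = a * t := by exact_mod_cast h2
    have h4 : Odd (b * s) := by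
      rw [h3]
      exact ha.mul ht
    exact (Int.odd_mul.1 h4).2
  -- the characters
  obtain ⟨B, χ, hB⟩ := exists_eig R
  have hker : ∀ i (u : (ZMod n)ˣ), R u = 1 → dch (χ i) (u : ZMod n) = 1 := by
    intro i u hu
    rw [dch_coe]
    have h1 := hB u i
    rw [hu] at h1
    unfold Eig at h1
    rw [cM_one, Matrix.one_mulVec] at h1
    have h2 : (1 - χ i u) • B i = 0 := by
      rw [sub_smul, one_smul, ← h1, sub_self]
    rcases smul_eq_zero.1 h2 with h3 | h3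
    · exact (sub_eq_zero.1 h3).symm
    · exact absurd h3 (B.ne_zero i)
  have hPQ := fun i => (hpq (dch (χ i)) (hker i)).1
  have hX : ∀ i, dch (χ i) ^ 2 ^ k = 1 := by
    intro i
    refine MulChar.ext fun u => ?_
    rw [MulChar.pow_apply_coe, MulChar.one_apply_coe, dch_coe, ← map_pow, ← dch_coe]
    apply hker
    obtain ⟨σ, rfl⟩ := hcs u
    rw [← map_pow, hR, map_pow, hk]
  obtain ⟨G, hG1, hG2, hG3⟩ := lfun hA hfI hc hR hB fun i => cop_of (hPQ i)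
  have hne : ∀ i, NeZero (dch (χ i)).conductor := fun i => ⟨(dch (χ i)).conductor_ne_zero⟩
  have hv : ∀ (Γ : Type) [LinearOrderedCommGroupWithZero Γ] (w : Valuation ℂ Γ), w 2 < 1 →
      ∀ i, w (tw (dch (χ i)).conductor) * w (G i 1) =
        w (Pool.Agent.K4H53.DP.per W (dch (χ i)).primitiveCharacter) := fun Γ _ w hw i =>
    one_val hΔ hs hmain (hX i) (hPQ i) (hG3 i) hw
  -- the values at `-1`
  have hm1 : ∀ i, (dch (χ i)).primitiveCharacter (-1) = χ i (-1) := by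
    intro i
    rw [prim_neg_one, ← dch_coe, Units.val_neg, Units.val_one]
  have hsq : ∀ i, χ i (-1) = 1 ∨ χ i (-1) = -1 := fun i => by
    apply mul_self_eq_one_iff.1
    rw [← map_mul]
    simp
  refine ⟨hrp, hcp, halg, fun s => ∏ i, G i s, Differentiable.fun_finsetProd fun i _ => hG1 i,
    hG2, (Finset.univ.filter fun i => χ i (-1) = 1).card,
    (Finset.univ.filter fun i => ¬ χ i (-1) = 1).card,
    (Finset.univ.filter fun i => 2 ∣ (dch (χ i)).conductor).card, ?_, Finset.card_le_univ _, ?_, ?_, ?_⟩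
  · rw [Finset.card_filter_add_card_filter_not, Finset.card_univ]
  · intro hu
    rw [Finset.card_eq_zero, Finset.filter_eq_empty_iff]
    exact fun i _ => (hpq (dch (χ i)) (hker i)).2 2 Nat.prime_two hu
  · intro σ hσ
    have h1 : c σ = -1 := by
      have h2 : ζ ^ ((c σ : ZMod n).val) = ζ⁻¹ := by rw [← hcζ, hσ]
      have h3 : ζ ^ ((c σ : ZMod n).val + 1) = 1 := by
        rw [pow_succ, h2, inv_mul_cancel₀ (hζ.ne_zero (NeZero.ne n))]
      have h4 : n ∣ (c σ : ZMod n).val + 1 := (hζ.pow_eq_one_iff_dvd _).1 h3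
      have h5 : (((c σ : ZMod n).val + 1 : ℕ) : ZMod n) = 0 := (ZMod.natCast_eq_zero_iff _ _).2 h4
      rw [Nat.cast_add, ZMod.natCast_zmod_val, Nat.cast_one] at h5
      apply Units.ext
      rw [Units.val_neg, Units.val_one]
      exact eq_neg_of_add_eq_zero_left h5
    have h2 := trace_eig B fun i => hB (-1) i
    have h3 : (ρ σ : Matrix κ κ ℂ) = cM (R (-1)) := by rw [← h1, hR]; rfl
    rw [h3, h2]
    rw [Finset.card_filter, Finset.card_filter]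
    push_cast
    rw [← Finset.sum_sub_distrib]
    refine Finset.sum_congr rfl fun i _ => ?_
    rcases hsq i with h | h
    · rw [h]; simp
    · rw [h]
      have : ¬ ((-1 : ℂ) = 1) := by norm_num
      simp [this]
  · intro Γ _ w hw
    have h1 : (2 : ℂ) ^ (Finset.univ.filter fun i => 2 ∣ (dch (χ i)).conductor).card =
        ∏ i, tw (dch (χ i)).conductor := by
      unfold tw
      rw [Finset.prod_ite, Finset.prod_const, Finset.prod_const_one, mul_one]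
    have h2 : (realPeriod W : ℂ) ^ (Finset.univ.filter fun i => χ i (-1) = 1).card *
        (Complex.I * ((complexPeriod W : ℂ) / (realPeriod W : ℂ))) ^
          (Finset.univ.filter fun i => ¬ χ i (-1) = 1).card =
        ∏ i, Pool.Agent.K4H53.DP.per W (dch (χ i)).primitiveCharacter := by
      have h3 : ∀ i, Pool.Agent.K4H53.DP.per W (dch (χ i)).primitiveCharacter =
          if χ i (-1) = 1 then (realPeriod W : ℂ) else
            Complex.I * ((complexPeriod W : ℂ) / (realPeriod W : ℂ)) := by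
        intro i
        unfold Pool.Agent.K4H53.DP.per
        rw [hm1]
        rfl
      rw [Finset.prod_congr rfl fun i _ => h3 i, Finset.prod_ite, Finset.prod_const, Finset.prod_const]
    rw [h1, h2]
    show w ((∏ i, tw (dch (χ i)).conductor) * ∏ i, G i 1) = _
    rw [← Finset.prod_mul_distrib, map_prod, map_prod]
    exact Finset.prod_congr rfl fun i _ => by rw [map_mul]; exact hv Γ w hw i

end

end Pool.Agent.K4H53.AP
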