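import Mathlib

/-!
# Frobenius automorphisms with a given restriction
-/

set_option autoImplicit false

open NumberField IsDedekindDomain Polynomial

open scoped Pointwise

namespace Pool.Agent.K4H53.AP.Rd

section abs

variable {S : Type} [CommRing S] {G : Type} [Group G] [Finite G] [MulSemiringAction G S]

theorem isMaximal_smul (v : Ideal S) [hv : v.IsMaximal] (g : G) : (g • v).IsMaximal := by
  rw [Ideal.pointwise_smul_eq_comap]
  exact Ideal.comap_isMaximal_of_surjective _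
    (MulSemiringAction.toRingEquiv G S g).symm.surjective

theorem exists_theta (G : Type) [Group G] [Finite G] [MulSemiringAction G S]
    (v : Ideal S) [hv : v.IsMaximal] [Finite (S ⧸ v)] :
    ∃ θ : S, θ ∉ v ∧ (∀ x : S, x ∉ v → ∃ i : ℕ, x - θ ^ i ∈ v) ∧
      ∀ g : G, g • v ≠ v → θ ∈ g • v := by
  classical
  letI := Fintype.ofFinite G
  letI : Field (S ⧸ v) := Ideal.Quotient.field v
  obtain ⟨γ, hγ⟩ := IsCyclic.exists_generator (α := (S ⧸ v)ˣ)
  obtain ⟨γ', hγ'⟩ := Ideal.Quotient.mk_surjective (γ : S ⧸ v)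
  set s := Finset.univ.filter fun g : G => g • v ≠ v with hs
  have hcop : IsCoprime v (⨅ g ∈ s, g • v) := by
    refine Ideal.isCoprime_biInf fun g hg => ?_
    rw [hs, Finset.mem_filter] at hg
    haveI := isMaximal_smul v g
    exact Ideal.isCoprime_iff_sup_eq.2 (Ideal.IsMaximal.coprime_of_ne hv inferInstance hg.2.symm)
  obtain ⟨a, ha, b, hb, hab⟩ := Ideal.isCoprime_iff_exists.mp hcop
  have hb1 : Ideal.Quotient.mk v b = 1 := by
    have h1 : b = 1 - a := by rw [← hab]; ring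
    rw [h1, map_sub, map_one, Ideal.Quotient.eq_zero_iff_mem.2 ha, sub_zero]
  have hθ : Ideal.Quotient.mk v (b * γ') = (γ : S ⧸ v) := by
    rw [map_mul, hb1, one_mul, hγ']
  refine ⟨b * γ', ?_, ?_, ?_⟩
  · intro h
    have h1 := Ideal.Quotient.eq_zero_iff_mem.2 h
    rw [hθ] at h1
    exact γ.ne_zero h1
  · intro x hx
    have hx1 : Ideal.Quotient.mk v x ≠ 0 := fun h => hx (Ideal.Quotient.eq_zero_iff_mem.1 h)
    obtain ⟨i, hi⟩ := mem_powers_iff_mem_zpowers.2 (hγ (Units.mk0 _ hx1))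
    refine ⟨i, ?_⟩
    rw [← Ideal.Quotient.eq, map_pow, hθ]
    have h2 := congrArg Units.val hi
    simpa using h2.symm
  · intro g hg
    have h1 : b ∈ g • v := by
      have h2 : (⨅ g ∈ s, g • v) ≤ g • v := iInf₂_le g (by rw [hs, Finset.mem_filter]; exact ⟨Finset.mem_univ _, hg⟩)
      exact h2 hb
    exact Ideal.mul_mem_right _ _ h1

/-- If `σ₁` is the Frobenius on the invariants of `N`, then some `σ₁ ρ`, `ρ ∈ N`, is a Frobenius. -/
theorem exists_lift (v : Ideal S) [hv : v.IsMaximal] [Finite (S ⧸ v)] (p : ℕ) (hp : p.Prime)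
    (hpv : (p : S) ∈ v) (N : Subgroup G) (σ₁ : G)
    (h : ∀ a : S, (∀ ρ ∈ N, ρ • a = a) → σ₁ • a - a ^ p ∈ v) :
    ∃ ρ ∈ N, ∀ x : S, (σ₁ * ρ) • x - x ^ p ∈ v := by
  classical
  letI : Field (S ⧸ v) := Ideal.Quotient.field v
  haveI : Fact p.Prime := ⟨hp⟩
  haveI : CharP (S ⧸ v) p := by
    have h0 : ((p : ℕ) : S ⧸ v) = 0 := by
      have h1 := Ideal.Quotient.eq_zero_iff_mem.2 hpv
      simpa using h1
    exact (CharP.charP_iff_prime_eq_zero hp).2 h0
  obtain ⟨θ, hθ1, hθ2, hθ3⟩ := exists_theta G v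
  letI := Fintype.ofFinite N
  set F := MulSemiringAction.charpoly N θ with hF
  set φ₁ : S →+* S ⧸ v := (Ideal.Quotient.mk v).comp (MulSemiringAction.toRingHom G S σ₁) with hφ₁
  set φ₂ : S →+* S ⧸ v := (frobenius (S ⧸ v) p).comp (Ideal.Quotient.mk v) with hφ₂
  have h12 : F.map φ₁ = F.map φ₂ := by
    ext i
    rw [coeff_map, coeff_map]
    have h1 := h (F.coeff i) (fun ρ hρ => by
      have := MulSemiringAction.smul_coeff_charpoly (G := N) θ i ⟨ρ, hρ⟩
      exact this)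
    rw [← Ideal.Quotient.eq] at h1
    simpa [hφ₁, hφ₂, frobenius_def] using h1
  have h0 : (F.map φ₁).eval (φ₂ θ) = 0 := by
    rw [h12, eval_map, eval₂_hom, hF, MulSemiringAction.eval_charpoly, map_zero]
  rw [hF, MulSemiringAction.charpoly_eq, Polynomial.map_prod, eval_prod, Finset.prod_eq_zero_iff]
    at h0
  obtain ⟨ρ, -, hρ⟩ := h0
  rw [Polynomial.map_sub, map_X, map_C, eval_sub, eval_X, eval_C, sub_eq_zero] at hρ
  refine ⟨ρ, ρ.2, ?_⟩
  have hσθ : Ideal.Quotient.mk v ((σ₁ * (ρ : G)) • θ) = Ideal.Quotient.mk v (θ ^ p) := by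
    rw [mul_smul, map_pow]
    exact hρ.symm
  set σ := σ₁ * (ρ : G) with hσ
  have hst : σ • v = v := by
    have h1 : σ⁻¹ • v = v := by
      by_contra hne
      have h2 := hθ3 _ hne
      rw [Ideal.mem_inv_pointwise_smul_iff] at h2
      have h3 := Ideal.Quotient.eq_zero_iff_mem.2 h2
      rw [hσθ, map_pow] at h3
      exact hθ1 (Ideal.Quotient.eq_zero_iff_mem.1 (pow_eq_zero_iff hp.ne_zero |>.1 h3))
    conv_lhs => rw [← h1]
    rw [smul_inv_smul]
  intro x
  by_cases hx : x ∈ v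
  · refine Ideal.sub_mem _ ?_ (Ideal.pow_mem_of_mem _ hx _ hp.pos)
    rw [← hst]
    exact Ideal.smul_mem_pointwise_smul_iff.2 hx
  · obtain ⟨i, hi⟩ := hθ2 x hx
    rw [← Ideal.Quotient.eq]
    have h1 : Ideal.Quotient.mk v (σ • x) = Ideal.Quotient.mk v (σ • θ ^ i) := by
      rw [Ideal.Quotient.eq, ← smul_sub, ← hst]
      exact Ideal.smul_mem_pointwise_smul_iff.2 hi
    rw [h1, smul_pow', map_pow, hσθ, map_pow, map_pow, Ideal.Quotient.eq.2 hi, map_pow, pow_right_comm]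

end abs

end Pool.Agent.K4H53.AP.Rd
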