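import Pool.Agent.K4H53.BSX.Defs

/-!
# Abelian image: the statements of the parts
-/

set_option autoImplicit false

open NumberField IsDedekindDomain WeierstrassCurve

open scoped Classical TensorProduct

namespace Pool.Agent.K4H53.AP

section rep

variable {H : Type} [Field H] [NumberField H]

/-- The Frobenius automorphisms at the place `v`. -/
def FrobSet (v : HeightOneSpectrum (𝓞 H)) : Set (H ≃ₐ[ℚ] H) :=
  {σ | IsArithFrobAt ℤ σ v.asIdeal}

end rep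

/-- `u ≡ p` modulo the prime-to-`p` part of `n` -/
def fr (n p : ℕ) (u : (ZMod n)ˣ) : Prop :=
  (((u : ZMod n).val : ℕ) : ZMod (ordCompl[p] n)) = ((p : ℕ) : ZMod (ordCompl[p] n))

/-- RED: the cyclotomic character, and the image of the set of the Frobenius automorphisms. -/
def S_RED : Prop := ∀ (n : ℕ) [NeZero n] (H : Type) [Field H] [NumberField H] [IsGalois ℚ H] (ζ : H),
  IsPrimitiveRoot ζ n → ∃ c : (H ≃ₐ[ℚ] H) →* (ZMod n)ˣ, Function.Surjective c ∧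
    (∀ σ : H ≃ₐ[ℚ] H, σ ζ = ζ ^ ((c σ : ZMod n).val)) ∧
    ∀ (v : HeightOneSpectrum (𝓞 H)) (p : ℕ), p.Prime → (p : 𝓞 H) ∈ v.asIdeal →
      (∀ σ ∈ FrobSet v, fr n p (c σ)) ∧
      ∃ k : ℕ, 0 < k ∧ ∀ u : (ZMod n)ˣ, fr n p u → Nat.card {σ // σ ∈ FrobSet v ∧ c σ = u} = k

/-- AVG: the mean value of a character over the residue classes which are `p` modulo the prime-to-`p`
part of `n`. -/
def S_AVG : Prop := ∀ (n : ℕ) [NeZero n] (χ : DirichletCharacter ℂ n) (p : ℕ), p.Prime →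
  0 < (Finset.univ.filter (fr n p)).card ∧
  ∑ u ∈ Finset.univ.filter (fr n p), χ (u : ZMod n) =
    ((Finset.univ.filter (fr n p)).card : ℂ) * χ.primitiveCharacter ((p : ℕ) : ZMod χ.conductor)

/-- The group `E(H)`. -/
abbrev Pts (W : WeierstrassCurve ℤ) (H : Type) [Field H] [Algebra ℚ H] : Type :=
  ((W.map (Int.castRingHom ℚ)).map (algebraMap ℚ H)).toAffine.Point

/-- The action of the automorphism `σ` on `E(H)`. -/
noncomputable def act (W : WeierstrassCurve ℤ) {H : Type} [Field H] [NumberField H] (σ : H ≃ₐ[ℚ] H) :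
    Pts W H →+ Pts W H :=
  Affine.Point.map (W' := (W.map (Int.castRingHom ℚ)).toAffine) (σ : H →ₐ[ℚ] H)

/-- The linear map `φ : V → A ⊗ ℂ` commutes with `G`. -/
def IsHom {G κ A : Type} [Group G] [Fintype κ] [DecidableEq κ] [AddCommGroup A]
    (ρ : G →* GL κ ℂ) (α : G → A →+ A) (φ : (κ → ℂ) →ₗ[ℂ] (ℂ ⊗[ℤ] A)) : Prop :=
  ∀ (σ : G) (v : κ → ℂ),
    φ ((ρ σ : Matrix κ κ ℂ).mulVec v) = (α σ).toIntLinearMap.baseChange ℂ (φ v)

/-- TRACE: if `E(K)` is finite, `K` the fixed field of the kernel of `ρ`, then there are no equivariant maps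
`V → E(H) ⊗ ℂ` but zero: for `x = φ v` and the normal subgroup `N` (the kernel), `|N| x = ∑_{σ ∈ N} σ x`,
and `∑_{σ ∈ N} σ P` is a point of `E(H)` fixed by `N`, so it comes from `E(K)` and is killed by `#E(K)`. -/
def S_TRACE : Prop := ∀ (W : WeierstrassCurve ℤ) (H : Type) [Field H] [NumberField H] [IsGalois ℚ H]
  (N : Subgroup (H ≃ₐ[ℚ] H)), Finite (Pts W (IntermediateField.fixedField N)) →
  ∀ (κ : Type) [Fintype κ] [DecidableEq κ] (ρ : (H ≃ₐ[ℚ] H) →* GL κ ℂ), (∀ σ ∈ N, ρ σ = 1) →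
  ∀ φ : (κ → ℂ) →ₗ[ℂ] (ℂ ⊗[ℤ] Pts W H), IsHom ρ (act W) φ → φ = 0

end Pool.Agent.K4H53.AP
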