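import Pool.Agent.K4H53.AP.Gs
import Pool.Agent.K4H53.CX.Quo

/-!
# The central values at the valuations above two
-/

set_option autoImplicit false
set_option linter.unusedSectionVars false

open NumberField IsDedekindDomain WeierstrassCurve MeasureTheory
open UpperHalfPlane MatrixGroups CongruenceSubgroup

open scoped Classical

namespace Pool.Agent.K4H53.AP

open Pool.Agent.Y702.G (IsForm pts)
open Pool.Agent.Y18.BSD (co bv)
open Pool.Agent.K4H53.CX (PQ aW QQ)
open Pool.Agent.K4H53.DP (per Cr)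

variable {W : WeierstrassCurve ℤ} {N : ℕ} [NeZero N]
  {f : CuspForm (Gamma0 N : Subgroup (GL (Fin 2) ℝ)) 2}

lemma cop_of {α : ℕ → ℤ} {q : ℕ} (h : PQ α N q) : Nat.Coprime q N := by
  rw [Nat.coprime_iff_gcd_eq_one]
  by_contra hne
  obtain ⟨l, hl, hld⟩ := Nat.exists_prime_and_dvd hne
  have h1 := hld.trans (Nat.gcd_dvd_left q N)
  have h2 := hld.trans (Nat.gcd_dvd_right q N)
  by_cases hl2 : l = 2
  · subst hl2
    exact (h.2 h1).1 h2
  · exact (h.1 l hl h1 hl2).1 h2

lemma cr_of {q : ℕ} (h : PQ (aW W) N q) : Cr W q :=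
  ⟨fun l hl hlq hl2 => (h.1 l hl hlq hl2).2, fun h2 => ⟨(h.2 h2).2.2, (h.2 h2).2.1⟩⟩

/-- the power of two in the Gauss sum -/
noncomputable def tw (q : ℕ) : ℂ := if 2 ∣ q then 2 else 1

lemma prim_pow {n : ℕ} [NeZero n] {X : DirichletCharacter ℂ n} {r : ℕ} (h : X ^ 2 ^ r = 1) :
    X.primitiveCharacter ^ 2 ^ r = 1 := by
  apply DirichletCharacter.changeLevel_injective X.conductor_dvd_level
  rw [map_pow, DirichletCharacter.changeLevel_primitiveCharacter, h, map_one]

section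

variable {Γ : Type} [LinearOrderedCommGroupWithZero Γ] {w : Valuation ℂ Γ}

lemma v_gs {n : ℕ} [NeZero n] {X : DirichletCharacter ℂ n} {r : ℕ} (hX : X ^ 2 ^ r = 1)
    (h8 : ¬ 8 ∣ X.conductor) [NeZero X.conductor] (hw : w 2 < 1) :
    w (gaussSum X.primitiveCharacter⁻¹ (ZMod.stdAddChar (N := X.conductor))) =
      w (tw X.conductor) := by
  have h20 : w 2 ≠ 0 := (Valuation.ne_zero_iff _).2 two_ne_zero
  have hp := X.primitiveCharacter_isPrimitive
  have hp' := Pool.Agent.W440.TW.inv_primitive _ hp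
  obtain ⟨b, q', h1, h2, h3⟩ := Pool.Agent.K4H53.CX.s_qq n X r hX
  rcases h3 with h3 | h3
  · have hodd : Odd X.conductor := by rw [h3]; exact h1
    rw [v_gs_odd hw hp' hodd, tw, if_neg (by
      rw [← even_iff_two_dvd]
      exact Nat.not_even_iff_odd.2 hodd), map_one]
  · have hb : b = 0 := by
      by_contra hb
      obtain ⟨b', rfl⟩ := Nat.exists_eq_succ_of_ne_zero hb
      apply h8
      rw [h3]
      exact ⟨2 ^ b' * q', by rw [Nat.succ_eq_add_one]; ring⟩
    subst hb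
    have h4 : X.conductor = 4 * q' := by rw [h3]; norm_num
    rw [v_gs_four hw h20 hp' (by rw [inv_inv]; exact hp) h1 h4, tw, if_pos (by
      rw [h4]; exact ⟨2 * q', by ring⟩)]

/-- the central value of one twist -/
theorem one_val {s : ℤ} (hΔ : W.Δ < 0) (hs : Odd s)
    (hmain : ∀ (q : ℕ) [NeZero q] (_ : Nat.Coprime q N) (χ : DirichletCharacter ℂ q)
      (_ : χ.IsPrimitive) (r : ℕ) (_ : χ ^ (2 ^ r) = 1), ∃ (D : ℤ) (c : (ZMod q)ˣ → ℤ), Odd D ∧
      D * ∑ u : (ZMod q)ˣ, χ⁻¹ (u : ZMod q) * bv f (((u : ZMod q).val : ℚ) / q) =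
        per W χ * ∑ u : (ZMod q)ˣ, χ (u : ZMod q) * (c u : ℂ) ∧
      ((0 < W.Δ → χ (-1) = 1) → (Odd (∑ u, c u) ↔ Odd s ∧ Cr W q)))
    {n : ℕ} [NeZero n] {X : DirichletCharacter ℂ n} {r : ℕ} (hX : X ^ 2 ^ r = 1)
    (hPQ : PQ (aW W) N X.conductor) [NeZero X.conductor] {G1 : ℂ}
    (hG : gaussSum X.primitiveCharacter⁻¹ (ZMod.stdAddChar (N := X.conductor)) * G1 =
      ∑ u : (ZMod X.conductor)ˣ, X.primitiveCharacter⁻¹ (u : ZMod X.conductor) *
        bv f (((u : ZMod X.conductor).val : ℚ) / X.conductor))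
    (hw : w 2 < 1) : w (tw X.conductor) * w G1 = w (per W X.primitiveCharacter) := by
  obtain ⟨D, c, hD, h1, h2⟩ := hmain X.conductor (cop_of hPQ) X.primitiveCharacter
    X.primitiveCharacter_isPrimitive r (prim_pow hX)
  have h3 : Odd (∑ u, c u) := (h2 fun h => absurd h (not_lt.2 hΔ.le)).2 ⟨hs, cr_of hPQ⟩
  rw [← hG] at h1
  have h4 := congrArg w h1
  have h8 : ¬ 8 ∣ X.conductor := fun h => (hPQ.2 ((show 2 ∣ 8 by norm_num).trans h)).2.2 h
  have h5 : w (∑ u : (ZMod X.conductor)ˣ, X.primitiveCharacter (u : ZMod X.conductor) * (c u : ℂ)) =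
      1 := by
    refine v_comb (r := r) hw _ _ _ (fun u _ => ?_) h3
    rw [← MulChar.pow_apply_coe, prim_pow hX, MulChar.one_apply_coe]
  rw [map_mul, map_mul, map_mul, v_odd hw hD, one_mul, h5, mul_one, v_gs hX h8 hw] at h4
  exact h4

end

/-- a character which is trivial on the classes that are `1` modulo the prime-to-`p` part -/
lemma not_dvd_cond {n : ℕ} [NeZero n] {X : DirichletCharacter ℂ n} {p : ℕ} (hp : p.Prime)
    (hX : ∀ u : (ZMod n)ˣ, (((u : ZMod n).val : ℕ) : ZMod (ordCompl[p] n)) = 1 →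
      X (u : ZMod n) = 1) : ¬ p ∣ X.conductor := by
  have hd : ordCompl[p] n ∣ n := Nat.ordCompl_dvd n p
  have hf : X.FactorsThrough (ordCompl[p] n) := by
    rw [DirichletCharacter.factorsThrough_iff_ker_unitsMap hd]
    intro u hu
    rw [MonoidHom.mem_ker] at hu ⊢
    apply Units.ext
    rw [MulChar.coe_toUnitHom, Units.val_one]
    apply hX
    have h3 : ((ZMod.unitsMap hd u : (ZMod (ordCompl[p] n))ˣ) : ZMod (ordCompl[p] n)) = 1 := by
      rw [hu]; rfl
    rw [← h3, ZMod.unitsMap_val]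
    exact ZMod.natCast_val _
  have h1 : X.conductor ∣ ordCompl[p] n :=
    (DirichletCharacter.mem_conductorSet_iff_conductor_dvd X hd).1 hf
  intro h2
  exact Nat.not_dvd_ordCompl hp (NeZero.ne n) (h2.trans h1)

/-- the value at `-1` -/
lemma prim_neg_one {n : ℕ} [NeZero n] (X : DirichletCharacter ℂ n) :
    X.primitiveCharacter (-1) = X (-1) := by
  have h := DirichletCharacter.changeLevel_primitiveCharacter X
  have h1 := DirichletCharacter.changeLevel_eq_cast_of_dvd X.primitiveCharacter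
    X.conductor_dvd_level (-1 : (ZMod n)ˣ)
  rw [h] at h1
  rw [Units.val_neg, Units.val_one] at h1
  rw [h1]
  congr 1
  rw [ZMod.cast_neg X.conductor_dvd_level, ZMod.cast_one X.conductor_dvd_level]

end Pool.Agent.K4H53.AP
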